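import Pool.Agent.P8H1.EK.Defs
import Pool.Agent.P8H1.KC.Alg
set_option autoImplicit false

/-!
The elements `xi j` are cocycles without residues, invariant under the automorphisms of the field
which fix the numbers `v_j`, `v'_j`.
-/

namespace Pool.Agent.P8H1.EK

open Pool.Agent.N65.TK (Pt FS br dif wedge al tu tu_mul tu_inv tu_pow tu_torsion alt_add1 alt_smul1
  alt_smul2 alt_swap23 alt_eq12 alt_eq23 alt_eq13 alt_add2 alt_add3 bnd redB red Red redB_eq_zero
  one_lt_val_pair val_torsion Kap)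
open Pool.Agent.P8H1.KC (alt_swap12 co_val)
open scoped WithZero

variable {K : Type*} [Field K] {r : ℕ} {C : Dat K r}

theorem co_x (j : Fin r) : (C.px j).co * (C.qx j).co = C.cx * C.cw j := by
  ext
  rw [Units.val_mul, co_val, co_val]
  exact prod_x j

theorem co_y (j : Fin r) : (C.py j).co * (C.qy j).co = C.cy * C.cw j := by
  ext
  rw [Units.val_mul, co_val, co_val]
  exact prod_y j

theorem tu_uc {c : Kˣ} {N : ℕ} (hN : 0 < N) (h : c ^ N = 1) : tu (C.uc c) = 0 :=
  tu_torsion hN (by rw [uc_pow, h, uc_one])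

theorem dif_xi {k : K} (hC : C.Admissible k) (j : Fin r) : dif C.Crv (C.xi j) = 0 := by
  obtain ⟨N, hN, h⟩ := hC.tors j
  obtain ⟨N', hN', h'⟩ := hC.tors' j
  have hi : (C.z j)⁻¹ ^ N = 1 := by rw [inv_pow, h, inv_one]
  have hi' : (C.z' j)⁻¹ ^ N' = 1 := by rw [inv_pow, h', inv_one]
  have key : ∀ (f : Pt C.Crv) (g : C.Crvˣ), dif C.Crv (br f g) =
      al C.Crv ![tu f.co, tu f.1, tu g] := by
    intro f g
    unfold dif br
    rw [Finsupp.linearCombination_single, one_smul]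
    rfl
  have t1 : tu (C.px j).1 = tu C.cx := by
    show tu (C.uc (C.z j)⁻¹ * C.cx) = _
    rw [tu_mul, tu_uc hN hi, zero_add]
  have t2 : tu (C.qx j).1 = tu C.cx := by
    show tu (C.uc (C.z j) * C.cx) = _
    rw [tu_mul, tu_uc hN h, zero_add]
  have t3 : tu (C.py j).1 = tu C.cy := by
    show tu (C.uc (C.z' j)⁻¹ * C.cy) = _
    rw [tu_mul, tu_uc hN' hi', zero_add]
  have t4 : tu (C.qy j).1 = tu C.cy := by
    show tu (C.uc (C.z' j) * C.cy) = _
    rw [tu_mul, tu_uc hN' h', zero_add]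
  have t5 : tu (C.px j).co + tu (C.qx j).co = tu C.cx + tu (C.cw j) := by
    rw [← tu_mul, co_x, tu_mul]
  have t6 : tu (C.py j).co + tu (C.qy j).co = tu C.cy + tu (C.cw j) := by
    rw [← tu_mul, co_y, tu_mul]
  unfold Dat.xi
  rw [map_add, map_add, map_add, key, key, key, key, t1, t2, t3, t4, ← alt_add1, t5, alt_add1,
    alt_eq12, zero_add, add_assoc, ← alt_add1, t6, alt_add1, alt_eq12, zero_add,
    alt_swap23 _ (tu (C.cw j)) (tu C.cx) (tu C.cy), add_neg_cancel]

section res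

variable {L : Type*} [Field L] (v : Valuation L ℤᵐ⁰)

/-- the valuation of the sum with the inverse -/
theorem val_pair_le {X : Lˣ} {t : L} (ht : v t ≤ 1) (h : v (X : L) = 1) :
    v ((X : L) + (X⁻¹ : Lˣ) - t) ≤ 1 := by
  refine (v.map_sub _ _).trans (max_le ((v.map_add _ _).trans (max_le h.le ?_)) ht)
  rw [Units.val_inv_eq_inv_val, map_inv₀, h, inv_one]

theorem val_pair_gt {X : Lˣ} {t : L} (ht : v t ≤ 1) (h : v (X : L) ≠ 1) :
    1 < v ((X : L) + (X⁻¹ : Lˣ) - t) := by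
  have key : ∀ Y : Lˣ, 1 < v (Y : L) → 1 < v ((Y : L) + (Y⁻¹ : Lˣ) - t) := by
    intro Y hY
    have h1 : v ((Y⁻¹ : Lˣ) : L) < 1 := by
      rw [Units.val_inv_eq_inv_val, map_inv₀]
      exact inv_lt_one_of_one_lt₀ hY
    have h2 : v (((Y⁻¹ : Lˣ) : L) - t) < v (Y : L) :=
      ((v.map_sub _ _).trans (max_le h1.le ht)).trans_lt hY
    have h3 : (Y : L) + (Y⁻¹ : Lˣ) - t = (Y : L) + (((Y⁻¹ : Lˣ) : L) - t) := by ring
    rw [h3, Valuation.map_add_eq_of_lt_left v h2]
    exact hY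
  rcases lt_or_gt_of_ne h with h1 | h1
  · have h2 : 1 < v ((X⁻¹ : Lˣ) : L) := by
      rw [Units.val_inv_eq_inv_val, map_inv₀]
      exact (one_lt_inv₀ (v.pos_iff.2 X.ne_zero)).2 h1
    have h3 := key X⁻¹ h2
    rw [inv_inv, add_comm] at h3
    exact h3
  · exact key X h1

theorem bnd_xi {k : K} (hC : C.Admissible k) (φ : C.Crv →+* L) (j : Fin r) :
    bnd v (FS.map φ (C.xi j)) = 0 := by
  obtain ⟨N, hN, h⟩ := hC.tors j
  obtain ⟨N', hN', h'⟩ := hC.tors' j
  have hc : ∀ {c : Kˣ} {m : ℕ}, 0 < m → c ^ m = 1 →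
      v ((Units.map (φ : C.Crv →* L) (C.uc c) : Lˣ) : L) = 1 := by
    intro c m hm h1
    refine val_torsion v hm ?_
    rw [← Units.val_pow_eq_pow_val, ← map_pow, uc_pow, h1, uc_one, map_one, Units.val_one]
  set X : Lˣ := Units.map (φ : C.Crv →* L) C.cx with hX
  set Y : Lˣ := Units.map (φ : C.Crv →* L) C.cy with hY
  have hi : (C.z j)⁻¹ ^ N = 1 := by rw [inv_pow, h, inv_one]
  have hi' : (C.z' j)⁻¹ ^ N' = 1 := by rw [inv_pow, h', inv_one]
  have vpx : v (((C.px j).map φ).1 : L) = v (X : L) := by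
    show v ((Units.map (φ : C.Crv →* L) (C.uc (C.z j)⁻¹ * C.cx) : Lˣ) : L) = _
    rw [map_mul, Units.val_mul, map_mul, hc hN hi, one_mul]
  have vqx : v (((C.qx j).map φ).1 : L) = v (X : L) := by
    show v ((Units.map (φ : C.Crv →* L) (C.uc (C.z j) * C.cx) : Lˣ) : L) = _
    rw [map_mul, Units.val_mul, map_mul, hc hN h, one_mul]
  have vpy : v (((C.py j).map φ).1 : L) = v (Y : L) := by
    show v ((Units.map (φ : C.Crv →* L) (C.uc (C.z' j)⁻¹ * C.cy) : Lˣ) : L) = _
    rw [map_mul, Units.val_mul, map_mul, hc hN' hi', one_mul]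
  have vqy : v (((C.qy j).map φ).1 : L) = v (Y : L) := by
    show v ((Units.map (φ : C.Crv →* L) (C.uc (C.z' j) * C.cy) : Lˣ) : L) = _
    rw [map_mul, Units.val_mul, map_mul, hc hN' h', one_mul]
  have ht : ∀ {c : Kˣ} {m : ℕ}, 0 < m → c ^ m = 1 → v (φ (C.cst (tr c))) ≤ 1 := by
    intro c m hm h1
    rw [← uc_add, map_add]
    refine (v.map_add _ _).trans (max_le (hc hm h1).le (hc hm (c := c⁻¹) ?_).le)
    rw [inv_pow, h1, inv_one]
  have hpair : (X : L) + (X⁻¹ : Lˣ) - φ (C.cst (tr (C.z j))) =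
      (Y : L) + (Y⁻¹ : Lˣ) - φ (C.cst (tr (C.z' j))) := by
    have h1 := congrArg φ ((rel_x (C := C) j).trans (rel_y (C := C) j).symm)
    rw [map_sub, map_add, map_sub, map_add] at h1
    rw [hX, hY, ← map_inv, ← map_inv]
    exact h1
  have hXY : v (X : L) = 1 ↔ v (Y : L) = 1 := by
    constructor
    · intro h1
      by_contra h2
      have h3 := val_pair_gt v (ht hN' h') h2
      rw [← hpair] at h3
      exact absurd h3 (not_lt.2 (val_pair_le v (ht hN h) h1))
    · intro h1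
      by_contra h2
      have h3 := val_pair_gt v (ht hN h) h2
      rw [hpair] at h3
      exact absurd h3 (not_lt.2 (val_pair_le v (ht hN' h') h1))
  have hmap : FS.map φ (C.xi j) = br ((C.px j).map φ) Y + br ((C.qx j).map φ) Y +
      br ((C.py j).map φ) X + br ((C.qy j).map φ) X := by
    unfold Dat.xi br FS.map
    simp only [map_add, Finsupp.lmapDomain_apply, Finsupp.mapDomain_single]
    rfl
  have hb : ∀ (f : Pt L) (g : Lˣ), bnd v (br f g) =
      ((WithZero.log (v (g : L)) : ℤ) : ℚ) • redB v f := by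
    intro f g
    unfold bnd br
    rw [Finsupp.linearCombination_single, one_smul]
  rw [hmap, map_add, map_add, map_add, hb, hb, hb, hb]
  by_cases h1 : v (X : L) = 1
  · have h2 := hXY.1 h1
    rw [h1, h2, WithZero.log_one, Int.cast_zero]
    simp
  · have h2 : v (Y : L) ≠ 1 := fun h3 => h1 (hXY.2 h3)
    rw [redB_eq_zero v (f := (C.px j).map φ) fun h => h1 (vpx ▸ h.1),
      redB_eq_zero v (f := (C.qx j).map φ) fun h => h1 (vqx ▸ h.1),
      redB_eq_zero v (f := (C.py j).map φ) fun h => h2 (vpy ▸ h.1),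
      redB_eq_zero v (f := (C.qy j).map φ) fun h => h2 (vqy ▸ h.1)]
    simp

end res

end Pool.Agent.P8H1.EK
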