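import Pool.Agent.P8H1.EK.Alg
set_option autoImplicit false

/-!
The elements `xi j` are invariant under the automorphisms of the field which fix the numbers
`v_j`, `v'_j`.
-/

namespace Pool.Agent.P8H1.EK

open Pool.Agent.N65.TK (Pt FS br)
open Pool.Agent.P8H1.PD (LP mo)

variable {K : Type*} [Field K] {r : ℕ} (C : Dat K r) (τ : K →+* K)

/-- `τ` on the coefficients of the Laurent polynomials. -/
noncomputable def coef (r : ℕ) (τ : K →+* K) : LP K (r + 2) →+* LP K (r + 2) :=
  AddMonoidAlgebra.mapRingHom (Fin (r + 2) → ℤ) τ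

theorem coef_single (k : Fin (r + 2) → ℤ) (a : K) :
    coef r τ (AddMonoidAlgebra.single k a) = AddMonoidAlgebra.single k (τ a) := by
  unfold coef
  exact AddMonoidAlgebra.mapRingHom_single _ _ _

variable (h : ∀ j, τ (tr (C.z j)) = tr (C.z j)) (h' : ∀ j, τ (tr (C.z' j)) = tr (C.z' j))

theorem coef_mono (i : Fin (r + 2)) (m : ℤ) :
    coef r τ (mono K r i m : LP K (r + 2)) = (mono K r i m : LP K (r + 2)) := by
  show coef r τ (AddMonoidAlgebra.single _ _) = AddMonoidAlgebra.single _ _
  rw [coef_single, Units.val_one, map_one]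

theorem coef_con (a : K) : coef r τ (con a) = con (τ a) := coef_single τ _ _

include h h' in
theorem idl_le : C.idl ≤ C.idl.comap (coef r τ) := by
  conv_lhs => unfold Dat.idl
  rw [Ideal.span_le]
  rintro P ⟨j, rfl | rfl⟩
  · show coef r τ _ ∈ C.idl
    rw [map_sub, map_sub, map_add, coef_mono, coef_mono, coef_mono, coef_con, h j]
    exact Ideal.subset_span ⟨j, Or.inl rfl⟩
  · show coef r τ _ ∈ C.idl
    rw [map_sub, map_sub, map_add, coef_mono, coef_mono, coef_mono, coef_con, h' j]
    exact Ideal.subset_span ⟨j, Or.inr rfl⟩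

/-- The endomorphism of the coordinate ring given by `τ` on the coefficients. -/
noncomputable def Dat.gal : C.Crv →+* C.Crv := Ideal.quotientMap C.idl (coef r τ) (idl_le C τ h h')

theorem gal_cst (a : K) : C.gal τ h h' (C.cst a) = C.cst (τ a) := by
  show Ideal.quotientMap C.idl (coef r τ) (idl_le C τ h h') (Ideal.Quotient.mk C.idl (con a)) = _
  rw [Ideal.quotientMap_mk, coef_con]
  rfl

theorem gal_mn (c : Kˣ) (k : Fin (r + 2) → ℤ) :
    Units.map (C.gal τ h h' : C.Crv →* C.Crv) (C.mn c k) = C.mn (Units.map (τ : K →* K) c) k := by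
  ext
  show Ideal.quotientMap C.idl (coef r τ) (idl_le C τ h h')
    (Ideal.Quotient.mk C.idl (AddMonoidAlgebra.single k (c : K))) = _
  rw [Ideal.quotientMap_mk, coef_single]
  rfl

theorem tau_eq {c : Kˣ} (hc : τ (tr c) = tr c) :
    Units.map (τ : K →* K) c = c ∨ Units.map (τ : K →* K) c = c⁻¹ := by
  have h1 : τ c + (τ c)⁻¹ = (c : K) + (c : K)⁻¹ := by
    unfold tr at hc
    rw [map_add, Units.val_inv_eq_inv_val, map_inv₀] at hc
    exact hc
  have hc0 : (c : K) ≠ 0 := c.ne_zero
  have ht0 : τ c ≠ 0 := (map_ne_zero τ).2 hc0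
  have h2 : (τ c - c) * (τ c - (c : K)⁻¹) = 0 := by
    field_simp at h1 ⊢
    linear_combination h1
  rcases mul_eq_zero.1 h2 with h3 | h3
  · left
    ext
    exact sub_eq_zero.1 h3
  · right
    ext
    rw [Units.val_inv_eq_inv_val]
    exact sub_eq_zero.1 h3

theorem gal_xi (j : Fin r) : FS.map (C.gal τ h h') (C.xi j) = C.xi j := by
  have hx : Units.map (C.gal τ h h' : C.Crv →* C.Crv) C.cx = C.cx := by
    unfold Dat.cx
    rw [gal_mn, map_one]
  have hy : Units.map (C.gal τ h h' : C.Crv →* C.Crv) C.cy = C.cy := by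
    unfold Dat.cy
    rw [gal_mn, map_one]
  have hu : ∀ c : Kˣ, Units.map (C.gal τ h h' : C.Crv →* C.Crv) (C.uc c) =
      C.uc (Units.map (τ : K →* K) c) := fun c => gal_mn C τ h h' c 0
  have hpx : ∀ f : Pt C.Crv, ∀ c : Kˣ, f.1 = C.uc c * C.cx →
      (f.map (C.gal τ h h')).1 = C.uc (Units.map (τ : K →* K) c) * C.cx := by
    intro f c hf
    show Units.map (C.gal τ h h' : C.Crv →* C.Crv) f.1 = _
    rw [hf, map_mul, hu, hx]
  have hpy : ∀ f : Pt C.Crv, ∀ c : Kˣ, f.1 = C.uc c * C.cy →
      (f.map (C.gal τ h h')).1 = C.uc (Units.map (τ : K →* K) c) * C.cy := by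
    intro f c hf
    show Units.map (C.gal τ h h' : C.Crv →* C.Crv) f.1 = _
    rw [hf, map_mul, hu, hy]
  have e1 : br ((C.px j).map (C.gal τ h h')) C.cy + br ((C.qx j).map (C.gal τ h h')) C.cy =
      br (C.px j) C.cy + br (C.qx j) C.cy := by
    rcases tau_eq τ (h j) with h1 | h1
    · have h2 : (C.px j).map (C.gal τ h h') = C.px j := by
        apply Subtype.ext
        rw [hpx (C.px j) (C.z j)⁻¹ rfl, map_inv, h1]
        rfl
      have h3 : (C.qx j).map (C.gal τ h h') = C.qx j := by
        apply Subtype.ext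
        rw [hpx (C.qx j) (C.z j) rfl, h1]
        rfl
      rw [h2, h3]
    · have h2 : (C.px j).map (C.gal τ h h') = C.qx j := by
        apply Subtype.ext
        rw [hpx (C.px j) (C.z j)⁻¹ rfl, map_inv, h1, inv_inv]
        rfl
      have h3 : (C.qx j).map (C.gal τ h h') = C.px j := by
        apply Subtype.ext
        rw [hpx (C.qx j) (C.z j) rfl, h1]
        rfl
      rw [h2, h3, add_comm]
  have e2 : br ((C.py j).map (C.gal τ h h')) C.cx + br ((C.qy j).map (C.gal τ h h')) C.cx =
      br (C.py j) C.cx + br (C.qy j) C.cx := by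
    rcases tau_eq τ (h' j) with h1 | h1
    · have h2 : (C.py j).map (C.gal τ h h') = C.py j := by
        apply Subtype.ext
        rw [hpy (C.py j) (C.z' j)⁻¹ rfl, map_inv, h1]
        rfl
      have h3 : (C.qy j).map (C.gal τ h h') = C.qy j := by
        apply Subtype.ext
        rw [hpy (C.qy j) (C.z' j) rfl, h1]
        rfl
      rw [h2, h3]
    · have h2 : (C.py j).map (C.gal τ h h') = C.qy j := by
        apply Subtype.ext
        rw [hpy (C.py j) (C.z' j)⁻¹ rfl, map_inv, h1, inv_inv]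
        rfl
      have h3 : (C.qy j).map (C.gal τ h h') = C.py j := by
        apply Subtype.ext
        rw [hpy (C.qy j) (C.z' j) rfl, h1]
        rfl
      rw [h2, h3, add_comm]
  have hmap : FS.map (C.gal τ h h') (C.xi j) =
      (br ((C.px j).map (C.gal τ h h')) C.cy + br ((C.qx j).map (C.gal τ h h')) C.cy) +
      (br ((C.py j).map (C.gal τ h h')) C.cx + br ((C.qy j).map (C.gal τ h h')) C.cx) := by
    conv_rhs => rw [← hx, ← hy]
    unfold Dat.xi br FS.map
    simp only [map_add, Finsupp.lmapDomain_apply, Finsupp.mapDomain_single]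
    rw [hx, hy]
    abel
  rw [hmap, e1, e2]
  unfold Dat.xi
  abel

end Pool.Agent.P8H1.EK
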