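import Mathlib
set_option autoImplicit false

/-!
The function `P(ψ) = (√(1 - b² sin² ψ) + i b sin ψ)²`, for which `P + 1/P = 2 - 4 b² sin² ψ`.
-/

namespace Pool.Agent.P8H1.EK

open Real Set Filter Topology

/-- `1 - b² sin² ψ` -/
noncomputable def gg (b : ℝ) (ψ : ℂ) : ℂ := 1 - (b : ℂ) ^ 2 * Complex.sin ψ ^ 2

/-- a square root of `1 - b² sin² ψ` -/
noncomputable def Sq (b : ℝ) (ψ : ℂ) : ℂ := Complex.exp (Complex.log (gg b ψ) / 2)

/-- the function `P` -/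
noncomputable def Pp (b : ℝ) (ψ : ℂ) : ℂ := (Sq b ψ + Complex.I * b * Complex.sin ψ) ^ 2

/-- the logarithmic derivative of `P`, divided by `i` -/
noncomputable def om (b : ℝ) (ψ : ℂ) : ℂ := 2 * b * Complex.cos ψ / Sq b ψ

theorem Sq_ne (b : ℝ) (ψ : ℂ) : Sq b ψ ≠ 0 := Complex.exp_ne_zero _

section slit

variable {b : ℝ} {ψ : ℂ}

theorem Sq_sq (h : gg b ψ ≠ 0) : Sq b ψ ^ 2 = gg b ψ := by
  unfold Sq
  rw [← Complex.exp_nat_mul]
  have h1 : ((2 : ℕ) : ℂ) * (Complex.log (gg b ψ) / 2) = Complex.log (gg b ψ) := by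
    push_cast
    ring
  rw [h1, Complex.exp_log h]

theorem Sq_mul (h : gg b ψ ≠ 0) : (Sq b ψ + Complex.I * b * Complex.sin ψ) *
    (Sq b ψ - Complex.I * b * Complex.sin ψ) = 1 := by
  have h1 := Sq_sq h
  unfold gg at h1
  linear_combination h1 - (b : ℂ) ^ 2 * Complex.sin ψ ^ 2 * Complex.I_sq

theorem Pp_ne (h : gg b ψ ≠ 0) : Pp b ψ ≠ 0 := by
  have h1 := Sq_mul h
  exact pow_ne_zero 2 (left_ne_zero_of_mul (h1.symm ▸ one_ne_zero))

theorem Pp_inv (h : gg b ψ ≠ 0) : (Pp b ψ)⁻¹ = (Sq b ψ - Complex.I * b * Complex.sin ψ) ^ 2 := by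
  have h1 := Sq_mul h
  rw [inv_eq_iff_eq_inv, eq_comm, inv_eq_iff_eq_inv]
  refine (eq_inv_of_mul_eq_one_right ?_)
  unfold Pp
  rw [← mul_pow, h1, one_pow]

theorem Pp_add_inv (h : gg b ψ ≠ 0) :
    Pp b ψ + (Pp b ψ)⁻¹ = 2 - 4 * (b : ℂ) ^ 2 * Complex.sin ψ ^ 2 := by
  have h1 := Sq_sq h
  rw [Pp_inv h]
  unfold Pp
  unfold gg at h1
  linear_combination 2 * h1 + 2 * (b : ℂ) ^ 2 * Complex.sin ψ ^ 2 * Complex.I_sq

theorem hasDerivAt_Sq (h : gg b ψ ∈ Complex.slitPlane) :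
    HasDerivAt (Sq b) (-(b : ℂ) ^ 2 * Complex.sin ψ * Complex.cos ψ / Sq b ψ) ψ := by
  have h0 := Complex.slitPlane_ne_zero h
  have h1 : HasDerivAt (gg b) (-((b : ℂ) ^ 2 * (2 * Complex.sin ψ * Complex.cos ψ))) ψ := by
    unfold gg
    have h2 := (((Complex.hasDerivAt_sin ψ).pow 2).const_mul ((b : ℂ) ^ 2)).const_sub 1
    refine h2.congr_deriv ?_
    push_cast
    ring
  have h2 := ((h1.clog h).div_const 2).cexp
  refine h2.congr_deriv ?_
  have h3 : Complex.exp (Complex.log (gg b ψ) / 2) = Sq b ψ := rfl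
  rw [h3]
  have h4 := Sq_sq h0
  have h5 := Sq_ne b ψ
  rw [← h4]
  field_simp

theorem hasDerivAt_Pp (h : gg b ψ ∈ Complex.slitPlane) :
    HasDerivAt (Pp b) (Pp b ψ * (Complex.I * om b ψ)) ψ := by
  have h1 := ((hasDerivAt_Sq h).add ((Complex.hasDerivAt_sin ψ).const_mul (Complex.I * b))).pow 2
  refine h1.congr_deriv ?_
  have h5 := Sq_ne b ψ
  have key : -(b : ℂ) ^ 2 * Complex.sin ψ * Complex.cos ψ / Sq b ψ +
      Complex.I * b * Complex.cos ψ = (Sq b ψ + Complex.I * b * Complex.sin ψ) *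
        (Complex.I * (b * Complex.cos ψ / Sq b ψ)) := by
    rw [div_add' _ _ _ h5, mul_div_assoc', mul_div_assoc', div_left_inj' h5]
    linear_combination (-(b : ℂ) ^ 2 * Complex.sin ψ * Complex.cos ψ) * Complex.I_sq
  rw [key]
  unfold Pp om
  rw [Pi.add_apply]
  push_cast
  ring

theorem contDiffAt_Pp (h : gg b ψ ∈ Complex.slitPlane) : ContDiffAt ℂ 2 (Pp b) ψ := by
  have h1 : ContDiffAt ℂ 2 (gg b) ψ := by
    unfold gg
    exact (contDiff_const.sub (contDiff_const.mul (Complex.contDiff_sin.pow 2))).contDiffAt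
  have h2 : ContDiffAt ℂ 2 (Sq b) ψ :=
    (((Complex.contDiffAt_log h).comp ψ h1).div_const 2).cexp
  unfold Pp
  exact (h2.add (contDiffAt_const.mul Complex.contDiff_sin.contDiffAt)).pow 2

end slit

/-- the argument on the loop -/
noncomputable def ps (e t : ℝ) : ℂ := ((2 * π * t : ℝ) : ℂ) + (e : ℂ) * Complex.I

section realpart

variable {b e : ℝ}

theorem sin_sq_re (t : ℝ) : (Complex.sin (ps e t) ^ 2).re ≤ Real.cosh e ^ 2 := by
  have h1 : (Complex.sin (ps e t)).re = Real.sin (2 * π * t) * Real.cosh e := by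
    unfold ps
    rw [Complex.sin_add_mul_I, ← Complex.ofReal_sin, ← Complex.ofReal_cosh, ← Complex.ofReal_cos,
      ← Complex.ofReal_sinh, ← Complex.ofReal_mul, ← Complex.ofReal_mul, Complex.add_re,
      Complex.ofReal_re, Complex.re_ofReal_mul, Complex.I_re, mul_zero, add_zero]
  rw [sq, Complex.mul_re, h1]
  have h2 := Real.sin_sq_le_one (2 * π * t)
  have h3 : 0 < Real.cosh e ^ 2 := by have := Real.cosh_pos e; positivity
  nlinarith [sq_nonneg (Complex.sin (ps e t)).im]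

theorem gg_re (t : ℝ) (h : b ^ 2 * Real.cosh e ^ 2 ≤ (1 + b ^ 2) / 2) :
    (1 - b ^ 2) / 2 ≤ (gg b (ps e t)).re := by
  have h1 : (gg b (ps e t)).re = 1 - b ^ 2 * (Complex.sin (ps e t) ^ 2).re := by
    unfold gg
    rw [Complex.sub_re, Complex.one_re, ← Complex.ofReal_pow, Complex.re_ofReal_mul]
  rw [h1]
  have h2 := sin_sq_re (e := e) t
  nlinarith [sq_nonneg b]

end realpart

end Pool.Agent.P8H1.EK
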