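import Pool.Agent.P8H1.EK.Defs
import Pool.Agent.P8H1.EK.Crd
import Pool.Agent.N65.TK.Rel
set_option autoImplicit false

/-!
The loops on the curve.
-/

namespace Pool.Agent.P8H1.EK

open Real Set Filter Topology
open Pool.Agent.N65.TK (Pt Path)
open Pool.Agent.P8H1.PD (LP mo)

section eval

variable {K : Type*} [Field K] {N : ℕ} (σ : K →+* ℂ)

/-- `k ↦ X^k` -/
noncomputable def chr (X : Fin N → ℂˣ) : Multiplicative (Fin N → ℤ) →* ℂ where
  toFun k := ((∏ l, X l ^ (k.toAdd l) : ℂˣ) : ℂ)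
  map_one' := by simp
  map_mul' k k' := by
    rw [← Units.val_mul, ← Finset.prod_mul_distrib]
    congr 1
    refine Finset.prod_congr rfl fun l _ => ?_
    rw [← zpow_add]
    rfl

/-- The value at the point `X`. -/
noncomputable def ev (X : Fin N → ℂˣ) : LP K N →+* ℂ :=
  AddMonoidAlgebra.liftNCRingHom σ (chr X) fun _ _ => mul_comm _ _

theorem ev_single (X : Fin N → ℂˣ) (k : Fin N → ℤ) (a : K) :
    ev σ X (AddMonoidAlgebra.single k a) = σ a * ((∏ l, X l ^ (k l) : ℂˣ) : ℂ) :=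
  AddMonoidAlgebra.liftNCRingHom_single _ _ _ _ _

theorem ev_eq (X : Fin N → ℂˣ) (P : LP K N) :
    ev σ X P = ∑ k ∈ P.coeff.support, σ (P.coeff k) * ((∏ l, X l ^ (k l) : ℂˣ) : ℂ) := by
  conv_lhs => rw [← AddMonoidAlgebra.sum_coeff_single P]
  unfold Finsupp.sum
  rw [map_sum]
  simp only [ev_single]

theorem zpow_smooth {f : ℝ → ℂˣ} (hf : ContDiff ℝ 2 fun t => (f t : ℂ)) (m : ℤ) :
    ContDiff ℝ 2 fun t => ((f t ^ m : ℂˣ) : ℂ) := by
  obtain ⟨k, rfl | rfl⟩ := m.eq_nat_or_neg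
  · simp only [zpow_natCast, Units.val_pow_eq_pow_val]
    exact hf.pow k
  · simp only [zpow_neg, zpow_natCast, Units.val_inv_eq_inv_val, Units.val_pow_eq_pow_val]
    exact (hf.pow k).inv fun t => pow_ne_zero k (f t).ne_zero

theorem ev_smooth {X : ℝ → Fin N → ℂˣ} (hs : ∀ l, ContDiff ℝ 2 fun t => (X t l : ℂ))
    (P : LP K N) : ContDiff ℝ 2 fun t => ev σ (X t) P := by
  simp only [ev_eq]
  refine ContDiff.sum fun k _ => contDiff_const.mul ?_
  simp only [Units.coe_prod]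
  exact contDiff_prod fun l _ => zpow_smooth (hs l) (k l)

end eval

section path

variable {K : Type*} [Field K] {r : ℕ} (C : Dat K r) (σ : K →+* ℂ)

theorem ev_mono (X : Fin (r + 2) → ℂˣ) (i : Fin (r + 2)) (m : ℤ) :
    ev σ X (mono K r i m : LP K (r + 2)) = ((X i ^ m : ℂˣ) : ℂ) := by
  show ev σ X (AddMonoidAlgebra.single _ _) = _
  rw [ev_single, Units.val_one, map_one, one_mul, Finset.prod_eq_single i]
  · rw [Pi.single_eq_same]
  · intro l _ hl
    rw [Pi.single_eq_of_ne hl, zpow_zero]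
  · intro h
    exact absurd (Finset.mem_univ i) h

theorem ev_con (X : Fin (r + 2) → ℂˣ) (a : K) : ev σ X (con a) = σ a := by
  show ev σ X (AddMonoidAlgebra.single _ _) = _
  rw [ev_single]
  simp

theorem ev_zero {X : Fin (r + 2) → ℂˣ}
    (h1 : ∀ j : Fin r, (X 0 : ℂ) + (X 0 : ℂ)⁻¹ - σ (tr (C.z j)) = X j.succ.succ)
    (h2 : ∀ j : Fin r, (X 1 : ℂ) + (X 1 : ℂ)⁻¹ - σ (tr (C.z' j)) = X j.succ.succ)
    (P : LP K (r + 2)) (hP : P ∈ C.idl) : ev σ X P = 0 := by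
  have h : C.idl ≤ RingHom.ker (ev σ X) := by
    unfold Dat.idl
    rw [Ideal.span_le]
    rintro Q ⟨j, rfl | rfl⟩
    · show ev σ X _ = 0
      rw [map_sub, map_sub, map_add, ev_mono, ev_mono, ev_mono, ev_con]
      simp only [zpow_one, zpow_neg, Units.val_inv_eq_inv_val]
      rw [h1, sub_self]
    · show ev σ X _ = 0
      rw [map_sub, map_sub, map_add, ev_mono, ev_mono, ev_mono, ev_con]
      simp only [zpow_one, zpow_neg, Units.val_inv_eq_inv_val]
      rw [h2, sub_self]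
  exact h hP

/-- The closed path given by the coordinates. -/
noncomputable def mkPath (X : ℝ → Fin (r + 2) → ℂˣ)
    (h1 : ∀ t, ∀ j : Fin r, (X t 0 : ℂ) + (X t 0 : ℂ)⁻¹ - σ (tr (C.z j)) = X t j.succ.succ)
    (h2 : ∀ t, ∀ j : Fin r, (X t 1 : ℂ) + (X t 1 : ℂ)⁻¹ - σ (tr (C.z' j)) = X t j.succ.succ)
    (hs : ∀ l, ContDiff ℝ 2 fun t => (X t l : ℂ)) (hp : ∀ t, X (t + 1) = X t) : Path C.Crv where
  e t := Ideal.Quotient.lift C.idl (ev σ (X t)) (ev_zero C σ (h1 t) (h2 t))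
  smooth h := by
    obtain ⟨P, rfl⟩ := Ideal.Quotient.mk_surjective h
    exact ev_smooth σ hs P
  periodic t := by
    have h := hp t
    simp only [h] <;> rfl

theorem mkPath_mn (X : ℝ → Fin (r + 2) → ℂˣ)
    (h1 : ∀ t, ∀ j : Fin r, (X t 0 : ℂ) + (X t 0 : ℂ)⁻¹ - σ (tr (C.z j)) = X t j.succ.succ)
    (h2 : ∀ t, ∀ j : Fin r, (X t 1 : ℂ) + (X t 1 : ℂ)⁻¹ - σ (tr (C.z' j)) = X t j.succ.succ)
    (hs : ∀ l, ContDiff ℝ 2 fun t => (X t l : ℂ)) (hp : ∀ t, X (t + 1) = X t) (t : ℝ) (c : Kˣ)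
    (k : Fin (r + 2) → ℤ) : (mkPath C σ X h1 h2 hs hp).e t (C.mn c k) =
      σ c * ((∏ l, X t l ^ (k l) : ℂˣ) : ℂ) :=
  ev_single σ (X t) k c

theorem mkPath_cst (X : ℝ → Fin (r + 2) → ℂˣ)
    (h1 : ∀ t, ∀ j : Fin r, (X t 0 : ℂ) + (X t 0 : ℂ)⁻¹ - σ (tr (C.z j)) = X t j.succ.succ)
    (h2 : ∀ t, ∀ j : Fin r, (X t 1 : ℂ) + (X t 1 : ℂ)⁻¹ - σ (tr (C.z' j)) = X t j.succ.succ)
    (hs : ∀ l, ContDiff ℝ 2 fun t => (X t l : ℂ)) (hp : ∀ t, X (t + 1) = X t) (t : ℝ) (a : K) :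
    (mkPath C σ X h1 h2 hs hp).e t (C.cst a) = σ a :=
  ev_con σ (X t) a

end path

section coordinates

/-- The conditions on the real parameters: `s` is the sign of `k`, `4 b² = 4 - |k|`. -/
structure Par (k s b : ℝ) : Prop where
  s1 : s = 1 ∨ s = -1
  sk : 0 < s * k
  b0 : 0 < b
  b1 : b < 1
  hb : 4 * b ^ 2 = 4 - s * k

variable {k s b e : ℝ}

/-- the coordinate `x` -/
noncomputable def Xc (s b e t : ℝ) : ℂ := s * Pp b (ps e t)

/-- the coordinate `y` -/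
noncomputable def Yc (s b e t : ℝ) : ℂ := -s * Pp b (ps (-e) (1 / 4 - t))

theorem Par.s_sq (h : Par k s b) : s * s = 1 := by
  rcases h.s1 with h | h <;> rw [h] <;> norm_num

theorem Par.s_ne (h : Par k s b) : (s : ℂ) ≠ 0 := by
  rcases h.s1 with h | h <;> rw [h] <;> norm_num

theorem Par.s_inv (h : Par k s b) : (s : ℂ)⁻¹ = s := by
  rcases h.s1 with h | h <;> rw [h] <;> norm_num

/-- `e` is small -/
def Small (b e : ℝ) : Prop := b ^ 2 * Real.cosh e ^ 2 ≤ (1 + b ^ 2) / 2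

theorem Small.neg (h : Small b e) : Small b (-e) := by
  unfold Small
  rw [Real.cosh_neg]
  exact h

theorem gg_mem (h : Par k s b) (he : Small b e) (t : ℝ) : gg b (ps e t) ∈ Complex.slitPlane := by
  left
  have h1 := gg_re t he
  have h2 : 0 < (1 - b ^ 2) / 2 := by
    have := h.b0
    have := h.b1
    nlinarith
  linarith

theorem gg_ne (h : Par k s b) (he : Small b e) (t : ℝ) : gg b (ps e t) ≠ 0 :=
  Complex.slitPlane_ne_zero (gg_mem h he t)

theorem Xc_ne (h : Par k s b) (he : Small b e) (t : ℝ) : Xc s b e t ≠ 0 :=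
  mul_ne_zero h.s_ne (Pp_ne (gg_ne h he t))

theorem Yc_ne (h : Par k s b) (he : Small b e) (t : ℝ) : Yc s b e t ≠ 0 :=
  mul_ne_zero (neg_ne_zero.2 h.s_ne) (Pp_ne (gg_ne h he.neg _))

theorem Xc_add (h : Par k s b) (he : Small b e) (t : ℝ) : Xc s b e t + (Xc s b e t)⁻¹ =
    s * (2 - 4 * (b : ℂ) ^ 2 * Complex.sin (ps e t) ^ 2) := by
  unfold Xc
  rw [mul_inv, h.s_inv, ← mul_add, Pp_add_inv (gg_ne h he t)]

theorem sin_ps_neg (e t : ℝ) : Complex.sin (ps (-e) (1 / 4 - t)) = Complex.cos (ps e t) := by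
  rw [← Complex.sin_pi_div_two_sub]
  congr 1
  unfold ps
  push_cast
  ring

theorem Yc_add (h : Par k s b) (he : Small b e) (t : ℝ) : Yc s b e t + (Yc s b e t)⁻¹ =
    -s * (2 - 4 * (b : ℂ) ^ 2 * Complex.cos (ps e t) ^ 2) := by
  unfold Yc
  rw [mul_inv, inv_neg, h.s_inv, ← mul_add, Pp_add_inv (gg_ne h he.neg _), sin_ps_neg]

theorem XY (h : Par k s b) (he : Small b e) (t : ℝ) : Xc s b e t + (Xc s b e t)⁻¹ -
    (Yc s b e t + (Yc s b e t)⁻¹) = k := by
  rw [Xc_add h he, Yc_add h he]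
  have h1 := Complex.sin_sq_add_cos_sq (ps e t)
  have h2 : (4 : ℂ) * (b : ℂ) ^ 2 = 4 - s * k := by exact_mod_cast h.hb
  have h3 : (s : ℂ) * s = 1 := by exact_mod_cast h.s_sq
  linear_combination (-4 * s * (b : ℂ) ^ 2) * h1 - s * h2 + k * h3

theorem cos_two_ps (e t : ℝ) : Complex.cos (2 * ps e t) =
    ((Real.cos (4 * π * t) * Real.cosh (2 * e) : ℝ) : ℂ) -
      ((Real.sin (4 * π * t) * Real.sinh (2 * e) : ℝ) : ℂ) * Complex.I := by
  have h1 : 2 * ps e t = ((4 * π * t : ℝ) : ℂ) + ((2 * e : ℝ) : ℂ) * Complex.I := by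
    unfold ps
    push_cast
    ring
  rw [h1, Complex.cos_add_mul_I]
  push_cast
  ring

/-- the function `x + 1/x` is never a real number `v` with `|v| ≤ 2`, `|v - k| ≤ 2` -/
theorem Xc_add_ne (h : Par k s b) (he : Small b e) (h0 : 0 < e) (t : ℝ) {v v' : ℝ}
    (hv : |v| ≤ 2) (hv' : |v'| ≤ 2) (hk : v - v' = k) :
    Xc s b e t + (Xc s b e t)⁻¹ - (v : ℂ) ≠ 0 := by
  intro h1
  rw [Xc_add h he] at h1
  have h2 : Complex.sin (ps e t) ^ 2 = (1 - Complex.cos (2 * ps e t)) / 2 := by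
    rw [Complex.cos_two_mul]
    have := Complex.sin_sq_add_cos_sq (ps e t)
    linear_combination this
  rw [h2, cos_two_ps] at h1
  have hre := congrArg Complex.re h1
  have him := congrArg Complex.im h1
  have e1 : (s : ℂ) * (2 - 4 * (b : ℂ) ^ 2 * ((1 - (((Real.cos (4 * π * t) * Real.cosh (2 * e) : ℝ) : ℂ) -
      ((Real.sin (4 * π * t) * Real.sinh (2 * e) : ℝ) : ℂ) * Complex.I)) / 2)) - (v : ℂ) =
      ((s * (2 - 2 * b ^ 2 + 2 * b ^ 2 * (Real.cos (4 * π * t) * Real.cosh (2 * e))) - v : ℝ) : ℂ) +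
      ((-(s * (2 * b ^ 2 * (Real.sin (4 * π * t) * Real.sinh (2 * e)))) : ℝ) : ℂ) * Complex.I := by
    push_cast
    ring
  rw [e1] at hre him
  simp only [Complex.add_re, Complex.ofReal_re, Complex.mul_re, Complex.I_re, mul_zero,
    Complex.ofReal_im, Complex.I_im, mul_one, sub_self, add_zero, Complex.zero_re] at hre
  simp only [Complex.add_im, Complex.ofReal_im, Complex.mul_im, Complex.ofReal_re, Complex.I_im,
    mul_one, Complex.I_re, mul_zero, add_zero, zero_add, Complex.zero_im, neg_eq_zero,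
    mul_eq_zero] at him
  have hs0 : s ≠ 0 := fun h3 => by have := h.s_sq; rw [h3] at this; norm_num at this
  have hb0 : b ^ 2 ≠ 0 := pow_ne_zero 2 h.b0.ne'
  have hsh : Real.sinh (2 * e) ≠ 0 := (Real.sinh_pos_iff.2 (by linarith)).ne'
  have hsin : Real.sin (4 * π * t) = 0 := by
    rcases him with h3 | (h3 | h3) | (h3 | h3)
    · exact absurd h3 hs0
    · norm_num at h3
    · exact absurd h3 hb0
    · exact h3
    · exact absurd h3 hsh
  have hcos : Real.cos (4 * π * t) = 1 ∨ Real.cos (4 * π * t) = -1 := by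
    have h3 := Real.sin_sq_add_cos_sq (4 * π * t)
    rw [hsin] at h3
    have h4 : (Real.cos (4 * π * t) - 1) * (Real.cos (4 * π * t) + 1) = 0 := by linarith
    rcases mul_eq_zero.1 h4 with h5 | h5
    · left; linarith
    · right; linarith
  have hcosh : 1 < Real.cosh (2 * e) := Real.one_lt_cosh.2 (by positivity)
  have hb2 := h.hb
  have hbp : 0 < b ^ 2 := by have := h.b0; positivity
  have h5 : (4 * b ^ 2) * 1 < (4 * b ^ 2) * Real.cosh (2 * e) := by
    apply mul_lt_mul_of_pos_left hcosh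
    positivity
  rw [abs_le] at hv hv'
  obtain ⟨hv1, hv2⟩ := hv
  obtain ⟨hv3, hv4⟩ := hv'
  rcases h.s1 with hs | hs <;> rcases hcos with hc | hc <;> rw [hs] at hre hb2 <;>
    rw [hc] at hre <;> nlinarith

theorem Pp_per (b : ℝ) (ψ : ℂ) : Pp b (ψ + 2 * π) = Pp b ψ := by
  unfold Pp Sq gg
  rw [Complex.sin_add_two_pi]

theorem Xc_per (s b e t : ℝ) : Xc s b e (t + 1) = Xc s b e t := by
  unfold Xc
  have : ps e (t + 1) = ps e t + 2 * π := by
    unfold ps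
    push_cast
    ring
  rw [this, Pp_per]

theorem Yc_per (s b e t : ℝ) : Yc s b e (t + 1) = Yc s b e t := by
  unfold Yc
  have : ps (-e) (1 / 4 - t) = ps (-e) (1 / 4 - (t + 1)) + 2 * π := by
    unfold ps
    push_cast
    ring
  rw [this, Pp_per]

theorem ps_smooth (e : ℝ) : ContDiff ℝ 2 (ps e) := by
  unfold ps
  have h1 : ContDiff ℝ 2 fun t : ℝ => ((2 * π * t : ℝ) : ℂ) :=
    Complex.ofRealCLM.contDiff.comp (contDiff_const.mul contDiff_id)
  exact h1.add contDiff_const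

theorem Pp_smooth (h : Par k s b) (he : Small b e) : ContDiff ℝ 2 fun t => Pp b (ps e t) := by
  rw [contDiff_iff_contDiffAt]
  intro t
  have h2 : ContDiffAt ℝ 2 (Pp b) (ps e t) := (contDiffAt_Pp (gg_mem h he t)).restrict_scalars ℝ
  exact h2.comp t (ps_smooth e).contDiffAt

theorem Xc_smooth (h : Par k s b) (he : Small b e) : ContDiff ℝ 2 (Xc s b e) :=
  contDiff_const.mul (Pp_smooth h he)

theorem Yc_smooth (h : Par k s b) (he : Small b e) : ContDiff ℝ 2 (Yc s b e) := by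
  unfold Yc
  exact contDiff_const.mul ((Pp_smooth h he.neg).comp (contDiff_const.sub contDiff_id))

end coordinates

end Pool.Agent.P8H1.EK
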