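import Pool.Agent.P8H1.EK.Sign
import Pool.Agent.P8H1.EK.Inv
set_option autoImplicit false

/-!
Existence of the loops; the rank of the regulator.
-/

namespace Pool.Agent.P8H1.EK

open Real Set Filter Topology MeasureTheory
open Pool.Agent.N65.TK (Pt Path FS br D norm_root Rels)

section exist

variable {K : Type*} [Field K] {r : ℕ} {C : Dat K r} {k : K} (σ : K →+* ℂ)

theorem re_facts (hC : C.Admissible k) (j : Fin r) :
    (σ (C.z j : K)).re + (σ (C.z' j : K)).re ≠ 0 ∧ (σ k).re ≠ 0 ∧ |(σ k).re| < 4 := by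
  have t1 := tr_val σ (hC.tors j)
  have t2 := tr_val σ (hC.tors' j)
  have b1 := re_le σ (hC.tors j)
  have b2 := re_le σ (hC.tors' j)
  have kv := k_val σ hC j
  have h1 : (σ (C.z j : K)).re + (σ (C.z' j : K)).re ≠ 0 := by
    intro h
    apply hC.ne' j
    apply σ.injective
    rw [map_neg, t1, t2, ← Complex.ofReal_neg]
    congr 1
    linarith
  have h2 : (σ k).re ≠ 0 := by
    intro h
    apply hC.ne j
    apply σ.injective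
    rw [t1, t2]
    congr 1
    linarith
  refine ⟨h1, h2, ?_⟩
  rw [abs_le] at b1 b2
  rw [abs_lt]
  constructor
  · by_contra h
    rw [not_lt] at h
    apply h1
    linarith [b1.1, b2.2]
  · by_contra h
    rw [not_lt] at h
    apply h1
    linarith [b1.2, b2.1]

theorem exists_par {κ : ℝ} (h0 : κ ≠ 0) (h4 : |κ| < 4) : ∃ s b : ℝ, Par κ s b := by
  have hp : 0 < |κ| := abs_pos.2 h0
  have hs : ∃ s : ℝ, (s = 1 ∨ s = -1) ∧ s * κ = |κ| := by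
    rcases lt_or_gt_of_ne h0 with h | h
    · exact ⟨-1, Or.inr rfl, by rw [abs_of_neg h]; ring⟩
    · exact ⟨1, Or.inl rfl, by rw [abs_of_pos h]; ring⟩
  obtain ⟨s, hs1, hs2⟩ := hs
  have h1 : 0 < (4 - |κ|) / 4 := by linarith
  refine ⟨s, √((4 - |κ|) / 4), hs1, by rw [hs2]; exact hp, Real.sqrt_pos.2 h1, ?_, ?_⟩
  · rw [Real.sqrt_lt' one_pos]
    linarith
  · rw [Real.sq_sqrt h1.le, hs2]
    ring

/-- existence of the loop -/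
theorem exists_path (hC : C.Admissible k) (hr : 0 < r) : ∃ γ : Path C.Crv,
    (∀ t a, γ.e t (C.cst a) = σ a) ∧
    ∀ j, γ.reg (C.xi j) * (σ (k * (tr (C.z j) + tr (C.z' j)))).re < 0 := by
  obtain ⟨-, hk0, hk4⟩ := re_facts σ hC ⟨0, hr⟩
  obtain ⟨s, b, hP⟩ := exists_par hk0 hk4
  have hkre : σ k = (((σ k).re : ℝ) : ℂ) := Complex.ext rfl (by
    rw [k_im σ hC ⟨0, hr⟩, Complex.ofReal_im])
  have hkj : ∀ j, σ (C.z j : K) + (σ (C.z j : K))⁻¹ - (σ (C.z' j : K) + (σ (C.z' j : K))⁻¹) =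
      (((σ k).re : ℝ) : ℂ) := by
    intro j
    rw [← hkre, ← hC.eq j, map_sub]
    unfold tr
    rw [map_add, map_add, Units.val_inv_eq_inv_val, Units.val_inv_eq_inv_val, map_inv₀, map_inv₀]
  have hev : ∀ᶠ e : ℝ in 𝓝[>] 0, ∀ j : Fin r,
      (∫ t in (0 : ℝ)..1, Me (σ (C.z j : K)) (σ (C.z' j : K)) s b e t) *
        (s * ((σ (C.z j : K)).re + (σ (C.z' j : K)).re)) < 0 := by
    rw [eventually_all]
    intro j
    have hz := norm_root σ (hC.tors j)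
    have hz' := norm_root σ (hC.tors' j)
    have h1 := (tendsto_Me hP hz hz' (hkj j)).mul_const
      (s * ((σ (C.z j : K)).re + (σ (C.z' j : K)).re))
    exact h1.eventually_lt_const (limit_sign hP hz hz' (re_facts σ hC j).1)
  have hsm : ∀ᶠ e : ℝ in 𝓝[>] 0, Small b e ∧ |e| ≤ 1 :=
    nhdsWithin_le_nhds (eventually_small hP.b1 hP.b0)
  have hpos : ∀ᶠ e : ℝ in 𝓝[>] 0, e ∈ Ioi (0 : ℝ) := self_mem_nhdsWithin
  obtain ⟨e, ⟨h1, h2⟩, h3⟩ := ((hev.and hsm).and hpos).exists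
  refine ⟨pth σ hC hP h2.1 h3, pth_cst σ hC hP h2.1 h3, fun j => ?_⟩
  rw [reg_pth]
  have h4 := h1 j
  have h5 : (σ (k * (tr (C.z j) + tr (C.z' j)))).re =
      2 * (s * (σ k).re) * (s * ((σ (C.z j : K)).re + (σ (C.z' j : K)).re)) := by
    rw [map_mul, map_add, tr_val σ (hC.tors j), tr_val σ (hC.tors' j), hkre, ← Complex.ofReal_add,
      ← Complex.ofReal_mul, Complex.ofReal_re, Complex.ofReal_re]
    linear_combination (-2 * (σ k).re * ((σ (C.z j : K)).re + (σ (C.z' j : K)).re)) * hP.s_sq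
  rw [h5]
  have h6 := hP.sk
  have h7 : (∫ t in (0 : ℝ)..1, Me (σ (C.z j : K)) (σ (C.z' j : K)) s b e t) *
      (2 * (s * (σ k).re) * (s * ((σ (C.z j : K)).re + (σ (C.z' j : K)).re))) =
      2 * (s * (σ k).re) * ((∫ t in (0 : ℝ)..1, Me (σ (C.z j : K)) (σ (C.z' j : K)) s b e t) *
        (s * ((σ (C.z j : K)).re + (σ (C.z' j : K)).re))) := by ring
  rw [h7]
  exact mul_neg_of_pos_of_neg (by positivity) h4

end exist

section rank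

/-- a sign criterion for a determinant -/
theorem det_ne {a b c d k₁ k₂ p₁ q₁ p₂ q₂ : ℝ} (h1 : a * (k₁ * p₁) < 0) (h2 : b * (k₁ * q₁) < 0)
    (h3 : c * (k₂ * p₂) < 0) (h4 : d * (k₂ * q₂) < 0) (h : (p₁ * q₁) * (p₂ * q₂) < 0) :
    a * d - b * c ≠ 0 := by
  intro h0
  have h5 : a * d = b * c := by linarith
  have e1 : 0 < (a * (k₁ * p₁)) * (d * (k₂ * q₂)) := mul_pos_of_neg_of_neg h1 h4
  have e2 : 0 < (b * (k₁ * q₁)) * (c * (k₂ * p₂)) := mul_pos_of_neg_of_neg h2 h3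
  have e3 : (a * (k₁ * p₁)) * (d * (k₂ * q₂)) * ((b * (k₁ * q₁)) * (c * (k₂ * p₂))) =
      (a * d) * (b * c) * (k₁ * k₂) ^ 2 * ((p₁ * q₁) * (p₂ * q₂)) := by ring
  have e4 := mul_pos e1 e2
  rw [e3, h5] at e4
  have e5 : 0 ≤ b * c * (b * c) * (k₁ * k₂) ^ 2 := mul_nonneg (mul_self_nonneg _) (sq_nonneg _)
  nlinarith

variable {K : Type*} [Field K] {C : Dat K 2} {k : K}

/-- The product of the numbers `v_j + v'_j`, `j < 2`. -/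
def sgn (C : Dat K 2) : K := (tr (C.z 0) + tr (C.z' 0)) * (tr (C.z 1) + tr (C.z' 1))

theorem exists_det (hC : C.Admissible k) (σ₁ σ₂ : K →+* ℂ)
    (h : (σ₁ (sgn C)).re * (σ₂ (sgn C)).re < 0) : ∃ γ₁ γ₂ : Path C.Crv,
      (∀ t a, γ₁.e t (C.cst a) = σ₁ a) ∧ (∀ t a, γ₂.e t (C.cst a) = σ₂ a) ∧
      γ₁.reg (C.xi 0) * γ₂.reg (C.xi 1) - γ₁.reg (C.xi 1) * γ₂.reg (C.xi 0) ≠ 0 := by
  obtain ⟨γ₁, a1, a2⟩ := exists_path σ₁ hC (by norm_num)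
  obtain ⟨γ₂, b1, b2⟩ := exists_path σ₂ hC (by norm_num)
  refine ⟨γ₁, γ₂, a1, b1, ?_⟩
  have key : ∀ (σ : K →+* ℂ) (j : Fin 2), (σ (k * (tr (C.z j) + tr (C.z' j)))).re =
      (σ k).re * (σ (tr (C.z j) + tr (C.z' j))).re := by
    intro σ j
    rw [map_mul, Complex.mul_re, k_im σ hC j, zero_mul, sub_zero]
  have key2 : ∀ σ : K →+* ℂ, (σ (sgn C)).re =
      (σ (tr (C.z 0) + tr (C.z' 0))).re * (σ (tr (C.z 1) + tr (C.z' 1))).re := by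
    intro σ
    unfold sgn
    rw [map_mul, Complex.mul_re]
    have h1 : (σ (tr (C.z 0) + tr (C.z' 0))).im = 0 := by
      rw [map_add, tr_val σ (hC.tors 0), tr_val σ (hC.tors' 0), Complex.add_im, Complex.ofReal_im,
        Complex.ofReal_im, add_zero]
    rw [h1, zero_mul, sub_zero]
  have h1 := a2 0
  have h2 := a2 1
  have h3 := b2 0
  have h4 := b2 1
  rw [key] at h1 h2 h3 h4
  rw [key2, key2] at h
  exact det_ne h1 h2 h3 h4 h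

end rank

section golden

variable {K : Type*} [Field K] (ζ : Kˣ)

/-- The two pairs `(ζ^6, ζ^15)`, `(ζ^10, ζ^18)`. -/
def D1 : Dat K 2 := ⟨![ζ ^ 6, ζ ^ 10], ![ζ ^ 15, ζ ^ 18]⟩

/-- The two pairs `(ζ^10, ζ^36)`, `(1, ζ^18)`. -/
def D2 : Dat K 2 := ⟨![ζ ^ 10, 1], ![ζ ^ 36, ζ ^ 18]⟩

variable {ζ}

/-- the cyclotomic relation -/
theorem cyc [CharZero K] (hζ : IsPrimitiveRoot ζ 60) : (ζ : K) ^ 30 = -1 ∧ (ζ : K) ^ 20 - ζ ^ 10 + 1 = 0 ∧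
    (ζ : K) ^ 24 - ζ ^ 18 + ζ ^ 12 - ζ ^ 6 + 1 = 0 := by
  have h0 : IsPrimitiveRoot (ζ : K) 60 := IsPrimitiveRoot.coe_units_iff.2 hζ
  have h60 : (ζ : K) ^ 60 = 1 := h0.pow_eq_one
  have hne : ∀ m : ℕ, 0 < m → m < 60 → (ζ : K) ^ m ≠ 1 := fun m h1 h2 =>
    h0.pow_ne_one_of_pos_of_lt h1.ne' h2
  have h30 : (ζ : K) ^ 30 = -1 := by
    have h1 : ((ζ : K) ^ 30 - 1) * ((ζ : K) ^ 30 + 1) = 0 := by linear_combination h60
    have h2 := (mul_eq_zero.1 h1).resolve_left (sub_ne_zero.2 (hne 30 (by norm_num) (by norm_num)))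
    linear_combination h2
  refine ⟨h30, ?_, ?_⟩
  · have h1 : ((ζ : K) ^ 10 + 1) * ((ζ : K) ^ 20 - ζ ^ 10 + 1) = 0 := by linear_combination h30
    refine (mul_eq_zero.1 h1).resolve_left fun h2 => ?_
    have h3 : (ζ : K) ^ 20 = 1 := by linear_combination ((ζ : K) ^ 10 - 1) * h2
    exact hne 20 (by norm_num) (by norm_num) h3
  · have h1 : ((ζ : K) ^ 6 + 1) * ((ζ : K) ^ 24 - ζ ^ 18 + ζ ^ 12 - ζ ^ 6 + 1) = 0 := by
      linear_combination h30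
    refine (mul_eq_zero.1 h1).resolve_left fun h2 => ?_
    have h3 : (ζ : K) ^ 12 = 1 := by linear_combination ((ζ : K) ^ 6 - 1) * h2
    exact hne 12 (by norm_num) (by norm_num) h3

theorem inv_pow_eq (hζ : IsPrimitiveRoot ζ 60) {m : ℕ} (hm : m ≤ 60) :
    (((ζ ^ m)⁻¹ : Kˣ) : K) = (ζ : K) ^ (60 - m) := by
  have h1 : (ζ ^ m)⁻¹ = ζ ^ (60 - m) := by
    rw [inv_eq_iff_mul_eq_one, ← pow_add, Nat.add_sub_cancel' hm, hζ.pow_eq_one]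
  rw [h1, Units.val_pow_eq_pow_val]

theorem tr_pow (hζ : IsPrimitiveRoot ζ 60) {m : ℕ} (hm : m ≤ 60) :
    tr (ζ ^ m) = (ζ : K) ^ m + (ζ : K) ^ (60 - m) := by
  unfold tr
  rw [inv_pow_eq hζ hm, Units.val_pow_eq_pow_val]

variable [CharZero K] (hζ : IsPrimitiveRoot ζ 60)

include hζ

theorem tr_six_sq : tr (ζ ^ 6) ^ 2 = tr (ζ ^ 6) + 1 := by
  obtain ⟨h1, h2, h3⟩ := cyc hζ
  rw [tr_pow hζ (by norm_num)]
  linear_combination h3 + (2 * ((ζ : K) ^ 30 - 1) + (ζ : K) ^ 18 * ((ζ : K) ^ 60 - ζ ^ 30 + 1) -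
    (ζ : K) ^ 24) * h1

theorem tr_15 : tr (ζ ^ 15) = (0 : K) := by
  obtain ⟨h1, h2, h3⟩ := cyc hζ
  rw [tr_pow hζ (by norm_num)]
  linear_combination (ζ : K) ^ 15 * h1

theorem tr_10 : tr (ζ ^ 10) = (1 : K) := by
  obtain ⟨h1, h2, h3⟩ := cyc hζ
  rw [tr_pow hζ (by norm_num)]
  linear_combination (ζ : K) ^ 20 * h1 - h2

theorem tr_36 : tr (ζ ^ 36) = -tr (ζ ^ 6) := by
  obtain ⟨h1, h2, h3⟩ := cyc hζ
  rw [tr_pow hζ (by norm_num), tr_pow hζ (by norm_num)]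
  linear_combination ((ζ : K) ^ 6 + (ζ : K) ^ 24) * h1

theorem tr_18 : tr (ζ ^ 18) = 1 - tr (ζ ^ 6) := by
  obtain ⟨h1, h2, h3⟩ := cyc hζ
  rw [tr_pow hζ (by norm_num), tr_pow hζ (by norm_num)]
  linear_combination ((ζ : K) ^ 12 + (ζ : K) ^ 24) * h1 - h3

theorem tr_one : tr (1 : Kˣ) = (2 : K) := by
  unfold tr
  rw [inv_one, Units.val_one]
  norm_num

omit hζ in
theorem two_ne_zero' : (2 : K) ≠ 0 := two_ne_zero

theorem golden_ne : tr (ζ ^ 6) ≠ (0 : K) ∧ tr (ζ ^ 6) ≠ (1 : K) ∧ tr (ζ ^ 6) ≠ (2 : K) ∧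
    tr (ζ ^ 6) ≠ (-1 : K) ∧ tr (ζ ^ 6) ≠ (3 : K) := by
  have h := tr_six_sq hζ
  refine ⟨fun h1 => ?_, fun h1 => ?_, fun h1 => ?_, fun h1 => ?_, fun h1 => ?_⟩ <;>
    rw [h1] at h <;> norm_num at h

theorem adm1 : (D1 ζ).Admissible (tr (ζ ^ 6)) := by
  obtain ⟨g0, g1, g2, g3, g4⟩ := golden_ne hζ
  have h60 := hζ.pow_eq_one
  have hp : ∀ m : ℕ, (ζ ^ m) ^ 60 = 1 := fun m => by
    rw [← pow_mul, mul_comm, pow_mul, h60, one_pow]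
  have e0 : (D1 ζ).z 0 = ζ ^ 6 := rfl
  have e1 : (D1 ζ).z 1 = ζ ^ 10 := rfl
  have e0' : (D1 ζ).z' 0 = ζ ^ 15 := rfl
  have e1' : (D1 ζ).z' 1 = ζ ^ 18 := rfl
  constructor
  · rw [Fin.forall_fin_two, e0, e1]
    exact ⟨⟨60, by norm_num, hp 6⟩, ⟨60, by norm_num, hp 10⟩⟩
  · rw [Fin.forall_fin_two, e0', e1']
    exact ⟨⟨60, by norm_num, hp 15⟩, ⟨60, by norm_num, hp 18⟩⟩
  · rw [Fin.forall_fin_two, e0, e1, e0', e1', tr_15 hζ, tr_10 hζ, tr_18 hζ]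
    exact ⟨by ring, by ring⟩
  · rw [Fin.forall_fin_two, e0, e1, e0', e1', tr_15 hζ, tr_10 hζ, tr_18 hζ]
    exact ⟨g0, fun h => g0 (by linear_combination h)⟩
  · rw [Fin.forall_fin_two, e0, e1, e0', e1', tr_15 hζ, tr_10 hζ, tr_18 hζ]
    exact ⟨fun h => g0 (by linear_combination h), fun h => g2 (by linear_combination -h)⟩

theorem adm2 : (D2 ζ).Admissible (tr (ζ ^ 6) + 1) := by
  obtain ⟨g0, g1, g2, g3, g4⟩ := golden_ne hζ
  have h60 := hζ.pow_eq_one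
  have hp : ∀ m : ℕ, (ζ ^ m) ^ 60 = 1 := fun m => by
    rw [← pow_mul, mul_comm, pow_mul, h60, one_pow]
  have e0 : (D2 ζ).z 0 = ζ ^ 10 := rfl
  have e1 : (D2 ζ).z 1 = 1 := rfl
  have e0' : (D2 ζ).z' 0 = ζ ^ 36 := rfl
  have e1' : (D2 ζ).z' 1 = ζ ^ 18 := rfl
  have t1 : tr (1 : Kˣ) = (2 : K) := tr_one hζ
  constructor
  · rw [Fin.forall_fin_two, e0, e1]
    exact ⟨⟨60, by norm_num, hp 10⟩, ⟨60, by norm_num, one_pow _⟩⟩
  · rw [Fin.forall_fin_two, e0', e1']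
    exact ⟨⟨60, by norm_num, hp 36⟩, ⟨60, by norm_num, hp 18⟩⟩
  · rw [Fin.forall_fin_two, e0, e1, e0', e1', tr_10 hζ, tr_36 hζ, tr_18 hζ, t1]
    exact ⟨by ring, by ring⟩
  · rw [Fin.forall_fin_two, e0, e1, e0', e1', tr_10 hζ, tr_36 hζ, tr_18 hζ, t1]
    exact ⟨fun h => g3 (by linear_combination h), fun h => g3 (by linear_combination h)⟩
  · rw [Fin.forall_fin_two, e0, e1, e0', e1', tr_10 hζ, tr_36 hζ, tr_18 hζ, t1]
    exact ⟨fun h => g1 (by linear_combination -h), fun h => g4 (by linear_combination -h)⟩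

theorem sgn1 : sgn (D1 ζ) = tr (ζ ^ 6) - 1 := by
  have h := tr_six_sq hζ
  show (tr (ζ ^ 6) + tr (ζ ^ 15)) * (tr (ζ ^ 10) + tr (ζ ^ 18)) = _
  rw [tr_15 hζ, tr_10 hζ, tr_18 hζ]
  linear_combination -h

theorem sgn2 : sgn (D2 ζ) = (1 - tr (ζ ^ 6)) * (3 - tr (ζ ^ 6)) := by
  show (tr (ζ ^ 10) + tr (ζ ^ 36)) * (tr (1 : Kˣ) + tr (ζ ^ 18)) = _
  rw [tr_36 hζ, tr_10 hζ, tr_18 hζ, tr_one hζ]
  ring

/-- the two values of the golden ratio -/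
theorem golden_pair (σ₁ σ₂ : K →+* ℂ) (h : σ₁ (tr (ζ ^ 6)) ≠ σ₂ (tr (ζ ^ 6))) :
    (σ₁ (tr (ζ ^ 6))).re + (σ₂ (tr (ζ ^ 6))).re = 1 ∧
    (σ₁ (tr (ζ ^ 6))).re * (σ₂ (tr (ζ ^ 6))).re = -1 ∧ (σ₁ (tr (ζ ^ 6))).im = 0 ∧
    (σ₂ (tr (ζ ^ 6))).im = 0 := by
  have hp : ∃ N : ℕ, 0 < N ∧ (ζ ^ 6) ^ N = 1 :=
    ⟨60, by norm_num, by rw [← pow_mul, mul_comm, pow_mul, hζ.pow_eq_one, one_pow]⟩
  have hsq := tr_six_sq hζ
  have i1 : (σ₁ (tr (ζ ^ 6))).im = 0 := by rw [tr_val σ₁ hp, Complex.ofReal_im]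
  have i2 : (σ₂ (tr (ζ ^ 6))).im = 0 := by rw [tr_val σ₂ hp, Complex.ofReal_im]
  have r1 : σ₁ (tr (ζ ^ 6)) = (((σ₁ (tr (ζ ^ 6))).re : ℝ) : ℂ) :=
    Complex.ext rfl (by rw [i1, Complex.ofReal_im])
  have r2 : σ₂ (tr (ζ ^ 6)) = (((σ₂ (tr (ζ ^ 6))).re : ℝ) : ℂ) :=
    Complex.ext rfl (by rw [i2, Complex.ofReal_im])
  set a := (σ₁ (tr (ζ ^ 6))).re with ha
  set b := (σ₂ (tr (ζ ^ 6))).re with hb
  have q1 : a ^ 2 = a + 1 := by
    have h1 := congrArg σ₁ hsq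
    rw [map_pow, map_add, map_one, r1] at h1
    exact_mod_cast h1
  have q2 : b ^ 2 = b + 1 := by
    have h1 := congrArg σ₂ hsq
    rw [map_pow, map_add, map_one, r2] at h1
    exact_mod_cast h1
  have hab : a - b ≠ 0 := by
    intro h1
    apply h
    rw [r1, r2]
    congr 1
    linarith
  have hs : a + b = 1 := by
    have h1 : (a - b) * (a + b - 1) = 0 := by linear_combination q1 - q2
    have := (mul_eq_zero.1 h1).resolve_left hab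
    linarith
  refine ⟨hs, ?_, i1, i2⟩
  have h2 : b = 1 - a := by linarith
  rw [h2]
  linear_combination -q1

theorem full_rank (σ₁ σ₂ : K →+* ℂ) (h : σ₁ (tr (ζ ^ 6)) ≠ σ₂ (tr (ζ ^ 6))) :
    (σ₁ (sgn (D1 ζ))).re * (σ₂ (sgn (D1 ζ))).re < 0 ∧
    (σ₁ (sgn (D2 ζ))).re * (σ₂ (sgn (D2 ζ))).re < 0 := by
  obtain ⟨h1, h2, i1, i2⟩ := golden_pair hζ σ₁ σ₂ h
  rw [sgn1 hζ, sgn2 hζ]
  have e : ∀ (σ : K →+* ℂ), (σ (tr (ζ ^ 6))).im = 0 →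
      (σ ((1 - tr (ζ ^ 6)) * (3 - tr (ζ ^ 6)))).re =
        (1 - (σ (tr (ζ ^ 6))).re) * (3 - (σ (tr (ζ ^ 6))).re) := by
    intro σ hi
    rw [map_mul, map_sub, map_sub, map_one, map_ofNat, Complex.mul_re, Complex.sub_im,
      Complex.sub_im, hi]
    simp
  rw [e σ₁ i1, e σ₂ i2, map_sub, map_sub, map_one, map_one, Complex.sub_re, Complex.sub_re,
    Complex.one_re]
  set a := (σ₁ (tr (ζ ^ 6))).re
  set b := (σ₂ (tr (ζ ^ 6))).re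
  constructor
  · have : (a - 1) * (b - 1) = -1 := by linear_combination h2 - h1
    linarith
  · have : (1 - a) * (3 - a) * ((1 - b) * (3 - b)) = -5 := by
      linear_combination (a * b - 3 * (a + b) + 9) * (h2 - h1) - (h2 - 3 * h1)
    linarith

end golden

end Pool.Agent.P8H1.EK
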