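import Pool.Agent.N65.TK.Circ
import Pool.Agent.P8H1.KC.Four
set_option autoImplicit false

/-!
The Bloch-Wigner function on the unit circle: continuity, and the comparison of the sums
`D(e^(iθ) / z) + D(e^(iθ) z)` for different `z` of absolute value `1`.
-/

namespace Pool.Agent.P8H1.EK

open Real Set Filter Topology MeasureTheory
open Pool.Agent.N65.TK (D Dc Ls hasDerivAt_Dc sin_half_pos D_real)
open Pool.Agent.P8H1.KC (D_conj arg_div_le)

theorem D_conj' (z : ℂ) : D ((starRingEnd ℂ) z) = -D z := by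
  by_cases h : z.im = 0
  · have h1 : z = (z.re : ℂ) := Complex.ext rfl (by rw [h, Complex.ofReal_im])
    rw [h1, Complex.conj_ofReal, D_real, neg_zero]
  · exact D_conj h

theorem Dc_neg (θ : ℝ) : Dc (-θ) = -Dc θ := by
  unfold Dc
  rw [← D_conj', ← Complex.exp_conj, map_mul, Complex.conj_ofReal, Complex.conj_I]
  congr 2
  push_cast
  ring

theorem Dc_eq (θ : ℝ) : Dc θ =
    -∫ t in (0 : ℝ)..1, Complex.arg (1 - t * Complex.exp (θ * Complex.I)) / t := by
  unfold Dc D
  rw [Complex.norm_exp_ofReal_mul_I, Real.log_one, mul_zero, add_zero]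

theorem continuous_Dc : Continuous Dc := by
  have h : Dc = fun θ : ℝ =>
      -∫ t in (0 : ℝ)..1, Complex.arg (1 - t * Complex.exp (θ * Complex.I)) / t := funext Dc_eq
  rw [h]
  refine Continuous.neg ?_
  rw [continuous_iff_continuousAt]
  intro θ
  refine intervalIntegral.continuousAt_of_dominated_interval (bound := fun _ => 2 * π) ?_ ?_
    intervalIntegrable_const ?_
  · refine Eventually.of_forall fun x => ?_
    refine Measurable.aestronglyMeasurable ?_
    refine Measurable.div (Complex.measurable_arg.comp ?_) measurable_id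
    exact (measurable_const.sub (Complex.measurable_ofReal.mul measurable_const))
  · refine Eventually.of_forall fun x => Eventually.of_forall fun t ht => ?_
    rw [uIoc_of_le zero_le_one] at ht
    have h1 := arg_div_le (z := Complex.exp (x * Complex.I)) ht
    rw [Complex.norm_exp_ofReal_mul_I, mul_one] at h1
    rw [norm_div, Real.norm_eq_abs, Real.norm_eq_abs, abs_of_pos ht.1, div_le_iff₀ ht.1]
    exact h1
  · have hc : ({1} : Set ℝ).Countable := countable_singleton 1
    filter_upwards [hc.ae_notMem volume] with t ht1 ht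
    rw [uIoc_of_le zero_le_one] at ht
    have ht2 : t < 1 := lt_of_le_of_ne ht.2 fun h => ht1 h
    have h2 : ContinuousAt (fun x : ℝ => (1 : ℂ) - t * Complex.exp (x * Complex.I)) θ := by fun_prop
    have h3 : (1 : ℂ) - t * Complex.exp (θ * Complex.I) ∈ Complex.slitPlane := by
      left
      rw [Complex.sub_re, Complex.one_re, Complex.re_ofReal_mul]
      have h4 := Complex.abs_re_le_norm (Complex.exp (θ * Complex.I))
      rw [Complex.norm_exp_ofReal_mul_I] at h4
      have h5 := (abs_le.1 h4).2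
      nlinarith [ht.1]
    have h4 : ContinuousAt (fun x : ℝ => Complex.arg (1 - t * Complex.exp (x * Complex.I))) θ :=
      ContinuousAt.comp (g := Complex.arg) (Complex.continuousAt_arg h3) h2
    exact h4.div_const t

theorem Ls_lt {a b : ℝ} (ha : 0 < a) (hb : b < 2 * π) (h : Real.sin (a / 2) < Real.sin (b / 2))
    (ha' : a < 2 * π) : Ls a < Ls b := by
  unfold Ls
  have h1 := sin_half_pos ha ha'
  exact Real.log_lt_log (by positivity) (by linarith)

/-- the sum is strictly decreasing in the angle of `z` -/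
theorem strictAnti {θ : ℝ} (h0 : 0 < θ) (h1 : θ < π) :
    StrictAntiOn (fun α => Dc (θ - α) + Dc (θ + α)) (Icc 0 π) := by
  have hpi := Real.pi_pos
  have hcont : Continuous fun α => Dc (θ - α) + Dc (θ + α) :=
    (continuous_Dc.comp (continuous_const.sub continuous_id)).add
      (continuous_Dc.comp (continuous_const.add continuous_id))
  have hsum : ∀ α ∈ Ioo 0 π, HasDerivAt (fun α => Dc (θ + α)) (-Ls (θ + α)) α := by
    intro α hα
    have h2 := (hasDerivAt_Dc (θ := θ + α) (by linarith [hα.1]) (by linarith [hα.2]))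
    exact h2.comp_const_add θ α
  have hA : StrictAntiOn (fun α => Dc (θ - α) + Dc (θ + α)) (Icc 0 θ) := by
    refine strictAntiOn_of_hasDerivWithinAt_neg (convex_Icc 0 θ) hcont.continuousOn
      (f' := fun α => Ls (θ - α) - Ls (θ + α)) ?_ ?_
    · intro α hα
      rw [interior_Icc] at hα
      have h2 : HasDerivAt (fun α => Dc (θ - α)) (- -Ls (θ - α)) α :=
        (hasDerivAt_Dc (θ := θ - α) (by linarith [hα.2]) (by linarith [hα.1])).comp_const_sub θ α
      have h3 := h2.add (hsum α ⟨hα.1, hα.2.trans h1⟩)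
      rw [neg_neg, ← sub_eq_add_neg] at h3
      exact h3.hasDerivWithinAt
    · intro α hα
      rw [interior_Icc] at hα
      have h2 : Real.sin ((θ - α) / 2) < Real.sin ((θ + α) / 2) := by
        have h3 := Real.sin_sub_sin ((θ + α) / 2) ((θ - α) / 2)
        have e1 : ((θ + α) / 2 - (θ - α) / 2) / 2 = α / 2 := by ring
        have e2 : ((θ + α) / 2 + (θ - α) / 2) / 2 = θ / 2 := by ring
        rw [e1, e2] at h3
        have h4 : 0 < Real.sin (α / 2) := Real.sin_pos_of_pos_of_lt_pi (by linarith [hα.1])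
          (by linarith [hα.2])
        have h5 : 0 < Real.cos (θ / 2) := Real.cos_pos_of_mem_Ioo ⟨by linarith, by linarith⟩
        have h6 : 0 < 2 * Real.sin (α / 2) * Real.cos (θ / 2) := by positivity
        linarith
      have h3 := Ls_lt (a := θ - α) (b := θ + α) (by linarith [hα.2]) (by linarith [hα.2]) h2
        (by linarith [hα.1])
      linarith
  have hB : StrictAntiOn (fun α => Dc (θ - α) + Dc (θ + α)) (Icc θ π) := by
    refine strictAntiOn_of_hasDerivWithinAt_neg (convex_Icc θ π) hcont.continuousOn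
      (f' := fun α => Ls (α - θ) - Ls (θ + α)) ?_ ?_
    · intro α hα
      rw [interior_Icc] at hα
      have h2 : HasDerivAt (fun α => Dc (α - θ)) (-Ls (α - θ)) α :=
        (hasDerivAt_Dc (θ := α - θ) (by linarith [hα.1]) (by linarith [hα.2])).comp_sub_const α θ
      have h3 := h2.neg.add (hsum α ⟨h0.trans hα.1, hα.2⟩)
      have e1 : (fun α => Dc (θ - α) + Dc (θ + α)) =
          (-fun α => Dc (α - θ)) + fun α => Dc (θ + α) := by
        funext α
        rw [Pi.add_apply, Pi.neg_apply, ← Dc_neg]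
        congr 2
        ring
      rw [e1]
      rw [neg_neg, ← sub_eq_add_neg] at h3
      exact h3.hasDerivWithinAt
    · intro α hα
      rw [interior_Icc] at hα
      have h2 : Real.sin ((α - θ) / 2) < Real.sin ((θ + α) / 2) := by
        have h3 := Real.sin_sub_sin ((θ + α) / 2) ((α - θ) / 2)
        have e1 : ((θ + α) / 2 - (α - θ) / 2) / 2 = θ / 2 := by ring
        have e2 : ((θ + α) / 2 + (α - θ) / 2) / 2 = α / 2 := by ring
        rw [e1, e2] at h3
        have h4 : 0 < Real.sin (θ / 2) := Real.sin_pos_of_pos_of_lt_pi (by linarith) (by linarith)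
        have h5 : 0 < Real.cos (α / 2) := Real.cos_pos_of_mem_Ioo ⟨by linarith [hα.1], by linarith [hα.2]⟩
        have h6 : 0 < 2 * Real.sin (θ / 2) * Real.cos (α / 2) := by positivity
        linarith
      have h3 := Ls_lt (a := α - θ) (b := θ + α) (by linarith [hα.1]) (by linarith [hα.2]) h2
        (by linarith [hα.2])
      linarith
  have h2 := hA.union hB (c := θ) ⟨⟨h0.le, le_rfl⟩, fun x hx => hx.2⟩
    ⟨⟨le_rfl, h1.le⟩, fun x hx => hx.1⟩
  rwa [Icc_union_Icc_eq_Icc h0.le h1.le] at h2

/-- `D(e^(iθ) / z) + D(e^(iθ) z)` -/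
noncomputable def Gz (z : ℂ) (θ : ℝ) : ℝ :=
  D (z⁻¹ * Complex.exp (θ * Complex.I)) + D (z * Complex.exp (θ * Complex.I))

theorem Gz_inv (z : ℂ) (θ : ℝ) : Gz z⁻¹ θ = Gz z θ := by
  unfold Gz
  rw [inv_inv, add_comm]

theorem Gz_exp (α θ : ℝ) : Gz (Complex.exp (α * Complex.I)) θ = Dc (θ - α) + Dc (θ + α) := by
  unfold Gz Dc
  rw [← Complex.exp_neg, ← Complex.exp_add, ← Complex.exp_add]
  congr 3
  · push_cast
    ring
  · push_cast
    ring

theorem exists_ang {z : ℂ} (hz : ‖z‖ = 1) (θ : ℝ) :
    Gz z θ = Dc (θ - Real.arccos z.re) + Dc (θ + Real.arccos z.re) := by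
  have h1 : z ≠ 0 := norm_ne_zero_iff.1 (by rw [hz]; exact one_ne_zero)
  have hre := Complex.abs_re_le_norm z
  rw [hz, abs_le] at hre
  have h2 : Complex.exp (z.arg * Complex.I) = z := by
    have := Complex.norm_mul_exp_arg_mul_I z
    rwa [hz, Complex.ofReal_one, one_mul] at this
  have h3 : Real.cos z.arg = z.re := by
    rw [← h2, Complex.exp_ofReal_mul_I_re, h2]
  rcases le_total 0 z.arg with h4 | h4
  · have h5 : Real.arccos z.re = z.arg := by
      rw [← h3]
      exact Real.arccos_cos h4 (Complex.arg_le_pi z)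
    rw [h5, ← Gz_exp, h2]
  · have h5 : Real.arccos z.re = -z.arg := by
      rw [← h3, ← Real.cos_neg]
      exact Real.arccos_cos (by linarith) (by linarith [Complex.neg_pi_lt_arg z])
    have h6 : Complex.exp (((-z.arg : ℝ) : ℂ) * Complex.I) = z⁻¹ := by
      rw [← h2, ← Complex.exp_neg, h2]
      congr 1
      push_cast
      ring
    rw [h5, ← Gz_exp, h6, Gz_inv]

theorem Gz_lt {z₁ z₂ : ℂ} (h1 : ‖z₁‖ = 1) (h2 : ‖z₂‖ = 1) (h : z₁.re < z₂.re) {θ : ℝ}
    (h0 : 0 < θ) (hθ : θ < π) : Gz z₁ θ < Gz z₂ θ := by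
  rw [exists_ang h1, exists_ang h2]
  have hre1 := Complex.abs_re_le_norm z₁
  have hre2 := Complex.abs_re_le_norm z₂
  rw [h1, abs_le] at hre1
  rw [h2, abs_le] at hre2
  have h3 : Real.arccos z₂.re < Real.arccos z₁.re :=
    Real.strictAntiOn_arccos ⟨hre1.1, hre1.2⟩ ⟨hre2.1, hre2.2⟩ h
  exact strictAnti h0 hθ ⟨Real.arccos_nonneg _, Real.arccos_le_pi _⟩
    ⟨Real.arccos_nonneg _, Real.arccos_le_pi _⟩ h3

theorem Gz_neg {z : ℂ} (hz : ‖z‖ = 1) (θ : ℝ) : Gz z (-θ) = -Gz z θ := by
  rw [exists_ang hz, exists_ang hz]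
  have e1 : Dc (-θ - Real.arccos z.re) = -Dc (θ + Real.arccos z.re) := by
    rw [← Dc_neg]
    congr 1
    ring
  have e2 : Dc (-θ + Real.arccos z.re) = -Dc (θ - Real.arccos z.re) := by
    rw [← Dc_neg]
    congr 1
    ring
  rw [e1, e2]
  ring

theorem continuous_Gz {z : ℂ} (hz : ‖z‖ = 1) : Continuous (Gz z) := by
  have h : Gz z = fun θ => Dc (θ - Real.arccos z.re) + Dc (θ + Real.arccos z.re) :=
    funext (exists_ang hz)
  rw [h]
  exact (continuous_Dc.comp (continuous_id.sub continuous_const)).add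
    (continuous_Dc.comp (continuous_id.add continuous_const))

end Pool.Agent.P8H1.EK
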