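import Pool.Agent.P8H1.PD.Defs
set_option autoImplicit false

/-!
The elliptic curves `x + 1/x - y - 1/y = k`, where `k` is the difference of two numbers
`ζ + 1/ζ`, `ζ' + 1/ζ'` (in one or in several ways), `ζ`, `ζ'` roots of unity, and elements of the
weight three polylogarithmic complex `B_3 → B_2 ⊗ A^* → Λ^3 A^*` of an open part.
-/

namespace Pool.Agent.P8H1.EK

open Pool.Agent.N65.TK (Pt FS br)
open Pool.Agent.P8H1.PD (LP mo)

/-- The number `ζ + 1/ζ`. -/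
def tr {K : Type*} [Field K] (c : Kˣ) : K := (c : K) + (c⁻¹ : Kˣ)

/-- The data: elements `ζ_j`, `ζ'_j` of the field `K`, `j < r`. -/
structure Dat (K : Type*) [Field K] (r : ℕ) where
  /-- the elements `ζ_j` -/
  z : Fin r → Kˣ
  /-- the elements `ζ'_j` -/
  z' : Fin r → Kˣ

variable {K : Type*} [Field K] {r : ℕ}

/-- The conditions: all `ζ_j`, `ζ'_j` are roots of unity, the differences `v_j - v'_j` of the numbers
`v_j = ζ_j + 1/ζ_j`, `v'_j = ζ'_j + 1/ζ'_j` are all equal to the same number `k`, and `v_j ≠ v'_j`,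
`v_j ≠ - v'_j`. -/
structure Dat.Admissible (C : Dat K r) (k : K) : Prop where
  tors : ∀ j, ∃ N : ℕ, 0 < N ∧ C.z j ^ N = 1
  tors' : ∀ j, ∃ N : ℕ, 0 < N ∧ C.z' j ^ N = 1
  eq : ∀ j, tr (C.z j) - tr (C.z' j) = k
  ne : ∀ j, tr (C.z j) ≠ tr (C.z' j)
  ne' : ∀ j, tr (C.z j) ≠ -tr (C.z' j)

variable (K r)

/-- The monomial `c X_i^m`. -/
noncomputable def mono (i : Fin (r + 2)) (m : ℤ) : (LP K (r + 2))ˣ := mo 1 (Pi.single i m)

variable {K r}

/-- The constants. -/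
noncomputable def con : K →+* LP K (r + 2) := AddMonoidAlgebra.singleZeroRingHom

/-- The ideal of the relations `x + 1/x - v_j = w_j`, `y + 1/y - v'_j = w_j` between the coordinates
`x, y, w_0, w_1, …` of the torus. -/
noncomputable def Dat.idl (C : Dat K r) : Ideal (LP K (r + 2)) := Ideal.span
  {P | ∃ j : Fin r,
    P = (mono K r 0 1 : LP K (r + 2)) + (mono K r 0 (-1) : LP K (r + 2)) - con (tr (C.z j)) -
      (mono K r j.succ.succ 1 : LP K (r + 2)) ∨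
    P = (mono K r 1 1 : LP K (r + 2)) + (mono K r 1 (-1) : LP K (r + 2)) - con (tr (C.z' j)) -
      (mono K r j.succ.succ 1 : LP K (r + 2))}

/-- The coordinate ring of the open part of the curve where the functions
`w_j = x + 1/x - v_j = y + 1/y - v'_j` do not vanish. -/
def Dat.Crv (C : Dat K r) : Type _ := LP K (r + 2) ⧸ C.idl

variable (C : Dat K r)

noncomputable instance : CommRing C.Crv := Ideal.Quotient.commRing C.idl

/-- The restriction of functions to the curve. -/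
noncomputable def Dat.proj : LP K (r + 2) →+* C.Crv := Ideal.Quotient.mk C.idl

/-- The constants. -/
noncomputable def Dat.cst : K →+* C.Crv := C.proj.comp con

/-- The unit `c x_0^(k_0) x_1^(k_1) …` on the curve. -/
noncomputable def Dat.mn (c : Kˣ) (k : Fin (r + 2) → ℤ) : C.Crvˣ :=
  Units.map (C.proj : LP K (r + 2) →* C.Crv) (mo c k)

/-- The coordinate `x`. -/
noncomputable def Dat.cx : C.Crvˣ := C.mn 1 (Pi.single 0 1)

/-- The coordinate `y`. -/
noncomputable def Dat.cy : C.Crvˣ := C.mn 1 (Pi.single 1 1)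

/-- The coordinate `w_j`. -/
noncomputable def Dat.cw (j : Fin r) : C.Crvˣ := C.mn 1 (Pi.single j.succ.succ 1)

/-- The constant `c` as a unit. -/
noncomputable def Dat.uc (c : Kˣ) : C.Crvˣ := C.mn c 0

variable {C}

theorem mn_mul (a b : Kˣ) (k l : Fin (r + 2) → ℤ) : C.mn (a * b) (k + l) = C.mn a k * C.mn b l := by
  unfold Dat.mn
  rw [← map_mul]
  congr 1
  ext1
  show AddMonoidAlgebra.single (k + l) ((a * b : Kˣ) : K) =
    AddMonoidAlgebra.single k (a : K) * AddMonoidAlgebra.single l (b : K)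
  rw [AddMonoidAlgebra.single_mul_single, Units.val_mul]

theorem mn_one : C.mn (1 : Kˣ) 0 = 1 := by
  unfold Dat.mn
  rw [← map_one (Units.map (C.proj : LP K (r + 2) →* C.Crv))]
  congr 1

theorem mn_inv (a : Kˣ) (k : Fin (r + 2) → ℤ) : (C.mn a k)⁻¹ = C.mn a⁻¹ (-k) := by
  have h : C.mn a k * C.mn a⁻¹ (-k) = 1 := by
    rw [← mn_mul, mul_inv_cancel, add_neg_cancel, mn_one]
  exact inv_eq_of_mul_eq_one_right h

theorem uc_mul (a b : Kˣ) : C.uc (a * b) = C.uc a * C.uc b := by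
  unfold Dat.uc
  rw [← mn_mul, add_zero]

theorem uc_one : C.uc 1 = 1 := mn_one

theorem uc_inv (a : Kˣ) : C.uc a⁻¹ = (C.uc a)⁻¹ := by
  have h : C.uc a * C.uc a⁻¹ = 1 := by rw [← uc_mul, mul_inv_cancel, uc_one]
  exact (inv_eq_of_mul_eq_one_right h).symm

theorem uc_pow (c : Kˣ) (m : ℕ) : C.uc c ^ m = C.uc (c ^ m) := by
  induction m with
  | zero => rw [pow_zero, pow_zero, uc_one]
  | succ m ih => rw [pow_succ, ih, pow_succ, uc_mul]

theorem uc_val (c : Kˣ) : (C.uc c : C.Crv) = C.cst c := rfl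

theorem rel_x (j : Fin r) : (C.cx : C.Crv) + (C.cx⁻¹ : C.Crvˣ) - C.cst (tr (C.z j)) = C.cw j := by
  have h : C.proj ((mono K r 0 1 : LP K (r + 2)) + (mono K r 0 (-1) : LP K (r + 2)) -
      con (tr (C.z j)) - (mono K r j.succ.succ 1 : LP K (r + 2))) = 0 :=
    Ideal.Quotient.eq_zero_iff_mem.2 (Ideal.subset_span ⟨j, Or.inl rfl⟩)
  rw [map_sub, sub_eq_zero, map_sub, map_add] at h
  have h1 : C.cx⁻¹ = C.mn 1 (Pi.single 0 (-1)) := by
    unfold Dat.cx
    rw [mn_inv, inv_one, ← Pi.single_neg]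
  rw [h1]
  exact h

theorem rel_y (j : Fin r) : (C.cy : C.Crv) + (C.cy⁻¹ : C.Crvˣ) - C.cst (tr (C.z' j)) = C.cw j := by
  have h : C.proj ((mono K r 1 1 : LP K (r + 2)) + (mono K r 1 (-1) : LP K (r + 2)) -
      con (tr (C.z' j)) - (mono K r j.succ.succ 1 : LP K (r + 2))) = 0 :=
    Ideal.Quotient.eq_zero_iff_mem.2 (Ideal.subset_span ⟨j, Or.inr rfl⟩)
  rw [map_sub, sub_eq_zero, map_sub, map_add] at h
  have h1 : C.cy⁻¹ = C.mn 1 (Pi.single 1 (-1)) := by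
    unfold Dat.cy
    rw [mn_inv, inv_one, ← Pi.single_neg]
  rw [h1]
  exact h

theorem prod_aux {A : Type*} [CommRing A] {x x' c c' w t : A} (h1 : x * x' = 1) (h2 : c * c' = 1)
    (h3 : c + c' = t) (h : x + x' - t = w) : (1 - c' * x) * (1 - c * x) = x * w := by
  linear_combination (x ^ 2) * h2 - h1 + x * h - x * h3

theorem uc_add (c : Kˣ) : (C.uc c : C.Crv) + (C.uc c⁻¹ : C.Crvˣ) = C.cst (tr c) := by
  rw [uc_val, uc_val, ← map_add]
  rfl

theorem uc_mul_inv (c : Kˣ) : (C.uc c : C.Crv) * (C.uc c⁻¹ : C.Crvˣ) = 1 := by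
  rw [uc_inv]
  exact Units.mul_inv _

/-- `(1 - x / ζ) (1 - x ζ) = x w` -/
theorem prod_x (j : Fin r) : (1 - ((C.uc (C.z j)⁻¹ * C.cx : C.Crvˣ) : C.Crv)) *
    (1 - ((C.uc (C.z j) * C.cx : C.Crvˣ) : C.Crv)) = ((C.cx * C.cw j : C.Crvˣ) : C.Crv) := by
  rw [Units.val_mul, Units.val_mul, Units.val_mul]
  exact prod_aux (Units.mul_inv _) (uc_mul_inv _) (uc_add _) (rel_x j)

/-- `(1 - y / ζ') (1 - y ζ') = y w` -/
theorem prod_y (j : Fin r) : (1 - ((C.uc (C.z' j)⁻¹ * C.cy : C.Crvˣ) : C.Crv)) *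
    (1 - ((C.uc (C.z' j) * C.cy : C.Crvˣ) : C.Crv)) = ((C.cy * C.cw j : C.Crvˣ) : C.Crv) := by
  rw [Units.val_mul, Units.val_mul, Units.val_mul]
  exact prod_aux (Units.mul_inv _) (uc_mul_inv _) (uc_add _) (rel_y j)

theorem isUnit_prod_x (j : Fin r) : IsUnit ((1 - ((C.uc (C.z j)⁻¹ * C.cx : C.Crvˣ) : C.Crv)) *
    (1 - ((C.uc (C.z j) * C.cx : C.Crvˣ) : C.Crv))) := by
  rw [prod_x j]
  exact Units.isUnit _

theorem isUnit_prod_y (j : Fin r) : IsUnit ((1 - ((C.uc (C.z' j)⁻¹ * C.cy : C.Crvˣ) : C.Crv)) *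
    (1 - ((C.uc (C.z' j) * C.cy : C.Crvˣ) : C.Crv))) := by
  rw [prod_y j]
  exact Units.isUnit _

variable (C)

/-- The function `x / ζ_j`. -/
noncomputable def Dat.px (j : Fin r) : Pt C.Crv :=
  ⟨C.uc (C.z j)⁻¹ * C.cx, isUnit_of_mul_isUnit_left (isUnit_prod_x j)⟩

/-- The function `x ζ_j`. -/
noncomputable def Dat.qx (j : Fin r) : Pt C.Crv :=
  ⟨C.uc (C.z j) * C.cx, isUnit_of_mul_isUnit_right (isUnit_prod_x j)⟩

/-- The function `y / ζ'_j`. -/
noncomputable def Dat.py (j : Fin r) : Pt C.Crv :=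
  ⟨C.uc (C.z' j)⁻¹ * C.cy, isUnit_of_mul_isUnit_left (isUnit_prod_y j)⟩

/-- The function `y ζ'_j`. -/
noncomputable def Dat.qy (j : Fin r) : Pt C.Crv :=
  ⟨C.uc (C.z' j) * C.cy, isUnit_of_mul_isUnit_right (isUnit_prod_y j)⟩

/-- The element `({x / ζ_j}_2 + {x ζ_j}_2) ⊗ y + ({y / ζ'_j}_2 + {y ζ'_j}_2) ⊗ x`. -/
noncomputable def Dat.xi (j : Fin r) : FS C.Crv :=
  br (C.px j) C.cy + br (C.qx j) C.cy + br (C.py j) C.cx + br (C.qy j) C.cx

end Pool.Agent.P8H1.EK
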