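import Pool.Agent.P8H1.EK.Reg
import Pool.Agent.P8H1.EK.Circ
set_option autoImplicit false

/-!
The limit of the regulator for `e → 0`.
-/

namespace Pool.Agent.P8H1.EK

open Real Set Filter Topology MeasureTheory
open Pool.Agent.N65.TK (Pt Path FS br D norm_root D_of_mem D_of_mem_S2)
open Pool.Agent.P8H1.KC (ld_of ln_per arg_div_le)
open Pool.Agent.W367.KT (Li S1 S2 D1 hasDerivAt_Li isOpen_S1 mem_S2_of_not_mem_S1)

section D

theorem contAt_D_S1 {u : ℂ} (h : u ∈ S1) (h0 : u ≠ 0) : ContinuousAt D u := by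
  have h1 : ContinuousAt D1 u := by
    unfold D1
    have h2 : ContinuousAt Li u := (hasDerivAt_Li h).continuousAt
    have h3 : ContinuousAt (fun z : ℂ => Complex.log (1 - z)) u :=
      (continuousAt_const.sub continuousAt_id).clog h
    have h4 : ContinuousAt (fun z : ℂ => Real.log ‖z‖) u :=
      continuousAt_id.norm.log (norm_ne_zero_iff.2 h0)
    exact (Complex.continuous_im.continuousAt.comp h2).add
      ((Complex.continuous_im.continuousAt.comp h3).mul h4)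
  refine h1.congr ?_
  filter_upwards [isOpen_S1.mem_nhds h] with z hz
  exact (D_of_mem hz).symm

theorem contAt_D {u : ℂ} (h0 : u ≠ 0) (h1 : u ≠ 1) : ContinuousAt D u := by
  by_cases h : u ∈ S1
  · exact contAt_D_S1 h h0
  · have h2 : u ∈ S2 := mem_S2_of_not_mem_S1 h1 h
    have h3 : ContinuousAt (fun z : ℂ => -D z⁻¹) u := by
      have h4 : ContinuousAt (fun z : ℂ => z⁻¹) u := continuousAt_id.inv₀ h0
      exact (ContinuousAt.comp (g := D) (contAt_D_S1 h2.2 (inv_ne_zero h0)) h4).neg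
    refine h3.congr ?_
    have h5 : ∀ᶠ z in 𝓝 u, z ≠ 0 := isOpen_ne.mem_nhds h0
    have h6 : ∀ᶠ z in 𝓝 u, z⁻¹ ∈ S1 :=
      (continuousAt_id.inv₀ h0 : ContinuousAt (fun z : ℂ => z⁻¹) u).eventually
        (isOpen_S1.mem_nhds h2.2)
    filter_upwards [h5, h6] with z hz1 hz2
    exact (D_of_mem_S2 ⟨hz1, hz2⟩).symm

theorem D_le {u : ℂ} {M : ℝ} (h0 : ‖u‖ ≤ M) (h1 : |Real.log ‖u‖| ≤ M) : |D u| ≤ 12 * M := by
  have hpi := Real.pi_lt_four
  have hpi0 := Real.pi_pos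
  have h2 : |∫ t in (0 : ℝ)..1, Complex.arg (1 - t * u) / t| ≤ 2 * π * ‖u‖ := by
    have h3 := intervalIntegral.norm_integral_le_of_norm_le_const (a := 0) (b := 1)
      (f := fun t : ℝ => Complex.arg (1 - t * u) / t) (C := 2 * π * ‖u‖) fun t ht => by
        rw [uIoc_of_le zero_le_one] at ht
        rw [norm_div, Real.norm_eq_abs, Real.norm_eq_abs, abs_of_pos ht.1, div_le_iff₀ ht.1]
        exact arg_div_le ht
    rw [sub_zero, abs_one, mul_one, Real.norm_eq_abs] at h3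
    exact h3
  unfold D
  have h3 : |Complex.arg (1 - u) * Real.log ‖u‖| ≤ π * |Real.log ‖u‖| := by
    rw [abs_mul]
    exact mul_le_mul_of_nonneg_right (Complex.abs_arg_le_pi _) (abs_nonneg _)
  have h4 := abs_add_le (-∫ t in (0 : ℝ)..1, Complex.arg (1 - t * u) / t)
    (Complex.arg (1 - u) * Real.log ‖u‖)
  rw [abs_neg] at h4
  have h5 : 0 ≤ M := (norm_nonneg u).trans h0
  have h6 : 2 * π * ‖u‖ ≤ 8 * M := by nlinarith [norm_nonneg u]
  have h7 : π * |Real.log ‖u‖| ≤ 4 * M := by nlinarith [abs_nonneg (Real.log ‖u‖)]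
  linarith

end D

section bounds

variable {κ s b e : ℝ}

theorem norm_sin_ps (h1 : |e| ≤ 1) (t : ℝ) : ‖Complex.sin (ps e t)‖ ≤ 4 := by
  unfold ps
  have hc : Real.cosh e ≤ 2 := by
    rw [← Real.cosh_abs]
    have h2 : Real.cosh |e| ≤ Real.cosh 1 := Real.cosh_le_cosh.2 (by rwa [abs_abs, abs_one])
    have h3 : Real.cosh 1 ≤ 2 := by
      rw [Real.cosh_eq]
      have h4 := Real.exp_one_lt_d9
      have h5 : Real.exp (-1) ≤ 1 := Real.exp_le_one_iff.2 (by norm_num)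
      linarith
    linarith
  have hs : |Real.sinh e| ≤ 2 := by
    rw [Real.abs_sinh]
    exact (Real.sinh_lt_cosh _).le.trans (by rwa [Real.cosh_abs])
  rw [Complex.sin_add_mul_I, ← Complex.ofReal_sin, ← Complex.ofReal_cosh, ← Complex.ofReal_cos,
    ← Complex.ofReal_sinh, ← Complex.ofReal_mul, ← Complex.ofReal_mul]
  refine (norm_add_le _ _).trans ?_
  rw [norm_mul, Complex.norm_I, mul_one, Complex.norm_real, Complex.norm_real, Real.norm_eq_abs,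
    Real.norm_eq_abs, abs_mul, abs_mul, abs_of_pos (Real.cosh_pos e)]
  have h3 := Real.abs_sin_le_one (2 * π * t)
  have h4 := Real.abs_cos_le_one (2 * π * t)
  have h5 : |Real.sin (2 * π * t)| * Real.cosh e ≤ 1 * 2 := by
    have := (Real.cosh_pos e).le
    gcongr
  have h6 : |Real.cos (2 * π * t)| * |Real.sinh e| ≤ 1 * 2 := by gcongr
  linarith

theorem norm_cos_ps (h1 : |e| ≤ 1) (t : ℝ) : ‖Complex.cos (ps e t)‖ ≤ 4 := by
  rw [← sin_ps_neg]
  exact norm_sin_ps (by rwa [abs_neg]) _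

variable (hP : Par κ s b) (he : Small b e) (he1 : |e| ≤ 1)

include hP he he1

theorem norm_Sq_le (t : ℝ) : ‖Sq b (ps e t)‖ ≤ 5 := by
  have h1 := congrArg norm (Sq_sq (gg_ne hP he t))
  have h2 : ‖gg b (ps e t)‖ ≤ 17 := by
    unfold gg
    refine (norm_sub_le _ _).trans ?_
    rw [norm_one, norm_mul, norm_pow, norm_pow, Complex.norm_real, Real.norm_of_nonneg hP.b0.le]
    have h3 : b ^ 2 * ‖Complex.sin (ps e t)‖ ^ 2 ≤ 1 ^ 2 * 4 ^ 2 := by
      have := hP.b0.le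
      have := hP.b1.le
      have := norm_sin_ps he1 t
      gcongr
    linarith
  rw [norm_pow] at h1
  nlinarith [norm_nonneg (Sq b (ps e t))]

theorem norm_Sq_ge (t : ℝ) : (1 - b ^ 2) / 2 ≤ ‖Sq b (ps e t)‖ := by
  have h1 := congrArg norm (Sq_sq (gg_ne hP he t))
  have h2 := gg_re t he
  have h3 := Complex.re_le_norm (gg b (ps e t))
  rw [norm_pow] at h1
  have h4 := hP.b0
  have h5 := hP.b1
  by_contra h6
  rw [not_le] at h6
  have h7 : ‖Sq b (ps e t)‖ ^ 2 < (1 - b ^ 2) / 2 * ((1 - b ^ 2) / 2) := by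
    rw [sq]
    exact mul_self_lt_mul_self (norm_nonneg _) h6
  have h8 : (1 - b ^ 2) / 2 * ((1 - b ^ 2) / 2) ≤ (1 - b ^ 2) / 2 := by
    have : 0 ≤ (1 - b ^ 2) / 2 := by nlinarith
    have : (1 - b ^ 2) / 2 ≤ 1 := by nlinarith
    nlinarith
  linarith

theorem norm_Pp_le (t : ℝ) : ‖Pp b (ps e t)‖ ≤ 81 ∧ ‖(Pp b (ps e t))⁻¹‖ ≤ 81 := by
  have h1 := norm_Sq_le hP he he1 t
  have h2 : ‖Complex.I * b * Complex.sin (ps e t)‖ ≤ 4 := by
    rw [norm_mul, norm_mul, Complex.norm_I, one_mul, Complex.norm_real,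
      Real.norm_of_nonneg hP.b0.le]
    have h3 := norm_sin_ps he1 t
    have h4 : b * ‖Complex.sin (ps e t)‖ ≤ 1 * 4 := by
      have := hP.b0.le
      have := hP.b1.le
      gcongr
    linarith
  constructor
  · unfold Pp
    rw [norm_pow]
    have h3 := (norm_add_le (Sq b (ps e t)) (Complex.I * b * Complex.sin (ps e t))).trans
      (add_le_add h1 h2)
    have h4 : ‖Sq b (ps e t) + Complex.I * b * Complex.sin (ps e t)‖ ^ 2 ≤ (5 + 4) ^ 2 := by gcongr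
    linarith
  · rw [Pp_inv (gg_ne hP he t), norm_pow]
    have h3 := (norm_sub_le (Sq b (ps e t)) (Complex.I * b * Complex.sin (ps e t))).trans
      (add_le_add h1 h2)
    have h4 : ‖Sq b (ps e t) - Complex.I * b * Complex.sin (ps e t)‖ ^ 2 ≤ (5 + 4) ^ 2 := by gcongr
    linarith

theorem norm_om_le (t : ℝ) : ‖om b (ps e t)‖ ≤ 16 / (1 - b ^ 2) := by
  unfold om
  have h1 := norm_Sq_ge hP he he1 t
  have h2 := norm_cos_ps he1 t
  have h3 : 0 < 1 - b ^ 2 := by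
    have := hP.b0
    have := hP.b1
    nlinarith
  have h4 : 0 < ‖Sq b (ps e t)‖ := norm_pos_iff.2 (Sq_ne _ _)
  rw [norm_div, norm_mul, norm_mul, Complex.norm_real, Real.norm_of_nonneg hP.b0.le,
    Complex.norm_ofNat, div_le_div_iff₀ h4 h3]
  have h5 : 2 * b * ‖Complex.cos (ps e t)‖ ≤ 2 * 1 * 4 := by
    have := hP.b0.le
    have := hP.b1.le
    gcongr
  have h6 : 2 * b * ‖Complex.cos (ps e t)‖ * (1 - b ^ 2) ≤ 8 * (1 - b ^ 2) := by
    apply mul_le_mul_of_nonneg_right _ h3.le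
    linarith
  linarith

theorem norm_s : ‖(s : ℂ)‖ = 1 := by
  rcases hP.s1 with h | h <;> rw [h] <;> simp

theorem norm_X_le (t : ℝ) : ‖Xc s b e t‖ ≤ 81 ∧ ‖(Xc s b e t)⁻¹‖ ≤ 81 := by
  have h1 := norm_Pp_le hP he he1 t
  unfold Xc
  rw [mul_inv, norm_mul, norm_mul, norm_inv, norm_s hP he he1, inv_one, one_mul, one_mul]
  exact h1

theorem norm_Y_le (t : ℝ) : ‖Yc s b e t‖ ≤ 81 ∧ ‖(Yc s b e t)⁻¹‖ ≤ 81 := by
  have h1 := norm_Pp_le hP he.neg (by rwa [abs_neg]) (1 / 4 - t)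
  unfold Yc
  rw [mul_inv, norm_mul, norm_mul, norm_inv, norm_neg, norm_s hP he he1, inv_one, one_mul, one_mul]
  exact h1

theorem norm_lx_le (t : ℝ) : ‖lx b e t‖ ≤ 128 / (1 - b ^ 2) := by
  unfold lx
  rw [norm_mul, norm_mul, Complex.norm_I, one_mul, Complex.norm_real,
    Real.norm_of_nonneg (by positivity)]
  have h1 := norm_om_le hP he he1 t
  have h2 := Real.pi_lt_four
  have h3 : (128 : ℝ) / (1 - b ^ 2) = 8 * (16 / (1 - b ^ 2)) := by ring
  rw [h3]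
  have := Real.pi_pos
  gcongr
  linarith

theorem norm_ly_le (t : ℝ) : ‖ly b e t‖ ≤ 128 / (1 - b ^ 2) := by
  have h1 := norm_lx_le hP he.neg (by rwa [abs_neg]) (1 / 4 - t)
  unfold ly
  rw [norm_neg]
  exact h1

end bounds

section logs

theorem abs_log_le {u : ℝ} (h0 : 0 < u) (h1 : u ≤ 81) (h2 : u⁻¹ ≤ 81) : |Real.log u| ≤ 81 := by
  have h3 := Real.log_le_sub_one_of_pos h0
  have h4 := Real.one_sub_inv_le_log_of_pos h0
  rw [abs_le]
  constructor <;> linarith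

theorem sq_log_le {u : ℝ} (h0 : 0 < u) (h2 : u⁻¹ ≤ 81) :
    Real.log u ^ 2 ≤ 81 ^ 2 * (u - 1) ^ 2 := by
  have h3 := Real.log_le_sub_one_of_pos h0
  have h4 := Real.one_sub_inv_le_log_of_pos h0
  have h5 : 1 - u⁻¹ = u⁻¹ * (u - 1) := by field_simp
  have h6 : |Real.log u| ≤ 81 * |u - 1| := by
    rcases le_total 1 u with h | h
    · rw [abs_of_nonneg (Real.log_nonneg h), abs_of_nonneg (by linarith)]
      linarith
    · rw [abs_of_nonpos (Real.log_nonpos h0.le h), abs_of_nonpos (by linarith)]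
      rw [h5] at h4
      have h7 : u⁻¹ * (1 - u) ≤ 81 * (1 - u) := mul_le_mul_of_nonneg_right h2 (by linarith)
      linarith
  calc Real.log u ^ 2 = |Real.log u| ^ 2 := (sq_abs _).symm
    _ ≤ (81 * |u - 1|) ^ 2 := by gcongr
    _ = 81 ^ 2 * (u - 1) ^ 2 := by rw [mul_pow, sq_abs]

/-- lower bound of `x + 1/x - (z + 1/z)` -/
theorem sq_log_norm_le {X z : ℂ} (hX : X ≠ 0) (hz : ‖z‖ = 1) (h1 : ‖X‖ ≤ 81) (h2 : ‖X⁻¹‖ ≤ 81) :
    Real.log ‖X‖ ^ 2 ≤ 81 ^ 3 * ‖X + X⁻¹ - (z + z⁻¹)‖ := by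
  have hz0 : z ≠ 0 := norm_ne_zero_iff.1 (by rw [hz]; exact one_ne_zero)
  have hX0 : 0 < ‖X‖ := norm_pos_iff.2 hX
  rw [norm_inv] at h2
  have h3 := sq_log_le hX0 h2
  have h4 : (X - z) * (X - z⁻¹) = X * (X + X⁻¹ - (z + z⁻¹)) := by
    field_simp
    ring
  have h5 : (‖X‖ - 1) ^ 2 ≤ ‖X - z‖ * ‖X - z⁻¹‖ := by
    have h6 := abs_norm_sub_norm_le X z
    have h7 := abs_norm_sub_norm_le X z⁻¹
    rw [norm_inv, hz, inv_one] at h7
    rw [hz] at h6
    rw [← sq_abs, sq]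
    gcongr
  have h6 := congrArg norm h4
  rw [norm_mul, norm_mul] at h6
  have h7 : ‖X‖ * ‖X + X⁻¹ - (z + z⁻¹)‖ ≤ 81 * ‖X + X⁻¹ - (z + z⁻¹)‖ := by gcongr
  nlinarith

end logs

/-- the integrand of the regulator on the loops -/
noncomputable def Me (z z' : ℂ) (s b e t : ℝ) : ℝ :=
  (D (z⁻¹ * Xc s b e t) + D (z * Xc s b e t)) * (ly b e t).im +
    (D (z'⁻¹ * Yc s b e t) + D (z' * Yc s b e t)) * (lx b e t).im +
    Real.log ‖Xc s b e t‖ * Real.log ‖Yc s b e t‖ *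
      ((Xc s b e t - (Xc s b e t)⁻¹) * lx b e t / (Xc s b e t + (Xc s b e t)⁻¹ - (z + z⁻¹))).re

section main

variable {κ s b e : ℝ} (hP : Par κ s b) {z z' : ℂ} (hz : ‖z‖ = 1) (hz' : ‖z'‖ = 1)
  (hk : z + z⁻¹ - (z' + z'⁻¹) = κ)

include hP hz hz' hk in
theorem Me_le (he : Small b e) (he1 : |e| ≤ 1) (t : ℝ) :
    |Me z z' s b e t| ≤ 10 ^ 12 / (1 - b ^ 2) := by
  have hb : 0 < 1 - b ^ 2 := by
    have := hP.b0
    have := hP.b1
    nlinarith
  obtain ⟨hX1, hX2⟩ := norm_X_le hP he he1 t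
  obtain ⟨hY1, hY2⟩ := norm_Y_le hP he he1 t
  have hX0 := Xc_ne hP he t
  have hY0 := Yc_ne hP he t
  have hlx := norm_lx_le hP he he1 t
  have hly := norm_ly_le hP he he1 t
  set X := Xc s b e t with hX
  set Y := Yc s b e t with hY
  set Q := 128 / (1 - b ^ 2) with hQ
  have hQ0 : 0 < Q := by positivity
  have hD : ∀ {c u : ℂ}, ‖c‖ = 1 → u ≠ 0 → ‖u‖ ≤ 81 → ‖u⁻¹‖ ≤ 81 → |D (c * u)| ≤ 972 := by
    intro c u hc hu0 hu1 hu2
    have h1 : ‖c * u‖ = ‖u‖ := by rw [norm_mul, hc, one_mul]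
    have h2 := D_le (u := c * u) (M := 81) (by rwa [h1])
      (by rw [h1]; exact abs_log_le (norm_pos_iff.2 hu0) hu1 (by rwa [norm_inv] at hu2))
    linarith
  have hzi : ‖z⁻¹‖ = 1 := by rw [norm_inv, hz, inv_one]
  have hzi' : ‖z'⁻¹‖ = 1 := by rw [norm_inv, hz', inv_one]
  have d1 := hD hzi hX0 hX1 hX2
  have d2 := hD hz hX0 hX1 hX2
  have d3 := hD hzi' hY0 hY1 hY2
  have d4 := hD hz' hY0 hY1 hY2
  have t1 : |(D (z⁻¹ * X) + D (z * X)) * (ly b e t).im| ≤ 1944 * Q := by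
    rw [abs_mul]
    have h1 := (abs_add_le (D (z⁻¹ * X)) (D (z * X))).trans (add_le_add d1 d2)
    have h2 := (Complex.abs_im_le_norm (ly b e t)).trans hly
    have h3 : |D (z⁻¹ * X) + D (z * X)| * |(ly b e t).im| ≤ (972 + 972) * Q := by gcongr
    linarith
  have t2 : |(D (z'⁻¹ * Y) + D (z' * Y)) * (lx b e t).im| ≤ 1944 * Q := by
    rw [abs_mul]
    have h1 := (abs_add_le (D (z'⁻¹ * Y)) (D (z' * Y))).trans (add_le_add d3 d4)
    have h2 := (Complex.abs_im_le_norm (lx b e t)).trans hlx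
    have h3 : |D (z'⁻¹ * Y) + D (z' * Y)| * |(lx b e t).im| ≤ (972 + 972) * Q := by gcongr
    linarith
  have hW : Y + Y⁻¹ - (z' + z'⁻¹) = X + X⁻¹ - (z + z⁻¹) := by
    have h1 := XY hP he t
    rw [← hX, ← hY] at h1
    linear_combination hk - h1
  have t3 : |Real.log ‖X‖ * Real.log ‖Y‖ * ((X - X⁻¹) * lx b e t / (X + X⁻¹ - (z + z⁻¹))).re| ≤
      81 ^ 3 * (162 * Q) := by
    have h1 := sq_log_norm_le hX0 hz hX1 hX2
    have h2 := sq_log_norm_le hY0 hz' hY1 hY2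
    rw [hW] at h2
    set W := X + X⁻¹ - (z + z⁻¹) with hWd
    have h3 : |Real.log ‖X‖ * Real.log ‖Y‖| ≤ 81 ^ 3 * ‖W‖ := by
      rw [abs_mul]
      rw [← sq_abs] at h1 h2
      nlinarith [sq_nonneg (|Real.log ‖X‖| - |Real.log ‖Y‖|)]
    rw [abs_mul]
    have h4 := Complex.abs_re_le_norm ((X - X⁻¹) * lx b e t / W)
    rw [norm_div, norm_mul] at h4
    have h5 : ‖X - X⁻¹‖ ≤ 162 := by
      have := norm_sub_le X X⁻¹
      linarith
    by_cases hW0 : W = 0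
    · rw [hW0, norm_zero, mul_zero] at h3
      have h6 : |Real.log ‖X‖ * Real.log ‖Y‖| = 0 := le_antisymm h3 (abs_nonneg _)
      rw [h6, zero_mul]
      positivity
    · have hW1 : 0 < ‖W‖ := norm_pos_iff.2 hW0
      have h6 : |((X - X⁻¹) * lx b e t / W).re| ≤ 162 * Q / ‖W‖ := by
        refine h4.trans ?_
        gcongr
      calc |Real.log ‖X‖ * Real.log ‖Y‖| * |((X - X⁻¹) * lx b e t / W).re| ≤
            (81 ^ 3 * ‖W‖) * (162 * Q / ‖W‖) := by gcongr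
        _ = 81 ^ 3 * (162 * Q) := by field_simp
  have h1 := abs_add_le ((D (z⁻¹ * X) + D (z * X)) * (ly b e t).im +
    (D (z'⁻¹ * Y) + D (z' * Y)) * (lx b e t).im)
    (Real.log ‖X‖ * Real.log ‖Y‖ * ((X - X⁻¹) * lx b e t / (X + X⁻¹ - (z + z⁻¹))).re)
  have h2 := abs_add_le ((D (z⁻¹ * X) + D (z * X)) * (ly b e t).im)
    ((D (z'⁻¹ * Y) + D (z' * Y)) * (lx b e t).im)
  have h3 : Me z z' s b e t = (D (z⁻¹ * X) + D (z * X)) * (ly b e t).im +
    (D (z'⁻¹ * Y) + D (z' * Y)) * (lx b e t).im +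
    Real.log ‖X‖ * Real.log ‖Y‖ * ((X - X⁻¹) * lx b e t / (X + X⁻¹ - (z + z⁻¹))).re := rfl
  have h4 : (10 : ℝ) ^ 12 / (1 - b ^ 2) = 10 ^ 12 / 128 * Q := by
    rw [hQ]
    ring
  rw [h3, h4]
  have h5 : (1944 + 1944 + 81 ^ 3 * 162) * Q ≤ 10 ^ 12 / 128 * Q := by
    apply mul_le_mul_of_nonneg_right _ hQ0.le
    norm_num
  nlinarith

end main

end Pool.Agent.P8H1.EK
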