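import Pool.Agent.P8H1.EK.Lim
set_option autoImplicit false

/-!
The limit of the regulator for `e → 0`, continued.
-/

namespace Pool.Agent.P8H1.EK

open Real Set Filter Topology MeasureTheory
open Pool.Agent.N65.TK (Pt Path FS br D norm_root D_of_mem D_of_mem_S2)
open Pool.Agent.P8H1.KC (ld_of ln_per)

section reg

variable {K : Type*} [Field K] {r : ℕ} {C : Dat K r} {k : K} (σ : K →+* ℂ)
  (hC : C.Admissible k) {s b e : ℝ} (hP : Par (σ k).re s b) (he : Small b e) (h0 : 0 < e)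

theorem reg_pth (j : Fin r) : (pth σ hC hP he h0).reg (C.xi j) =
    ∫ t in (0 : ℝ)..1, Me (σ (C.z j : K)) (σ (C.z' j : K)) s b e t := by
  rw [reg_xi hC]
  refine intervalIntegral.integral_congr fun t _ => ?_
  set γ := pth σ hC hP he h0 with hγ
  set z := σ (C.z j : K) with hz
  set z' := σ (C.z' j : K) with hz'
  have e1 : γ.e t (C.px j).1 = z⁻¹ * Xc s b e t := by
    show γ.e t (C.uc (C.z j)⁻¹ * C.cx : C.Crvˣ) = _
    rw [hγ, pth_uc_x, inv_val]
  have e2 : γ.e t (C.qx j).1 = z * Xc s b e t := by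
    show γ.e t (C.uc (C.z j) * C.cx : C.Crvˣ) = _
    rw [hγ, pth_uc_x]
  have e3 : γ.e t (C.py j).1 = z'⁻¹ * Yc s b e t := by
    show γ.e t (C.uc (C.z' j)⁻¹ * C.cy : C.Crvˣ) = _
    rw [hγ, pth_uc_y, inv_val]
  have e4 : γ.e t (C.qy j).1 = z' * Yc s b e t := by
    show γ.e t (C.uc (C.z' j) * C.cy : C.Crvˣ) = _
    rw [hγ, pth_uc_y]
  have l1 : γ.ld C.cx t = lx b e t := ld_of γ C.cx t (pth_x σ hC hP he h0) (hd_X hP he t)
  have l2 : γ.ld C.cy t = ly b e t := ld_of γ C.cy t (pth_y σ hC hP he h0) (hd_Y hP he t)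
  have hX0 := Xc_ne hP he t
  have htr : σ (tr (C.z j)) = z + z⁻¹ := by
    unfold tr
    rw [map_add, Units.val_inv_eq_inv_val, map_inv₀]
  have l3 : γ.ld (C.cw j) t = (Xc s b e t - (Xc s b e t)⁻¹) * lx b e t /
      (Xc s b e t + (Xc s b e t)⁻¹ - (z + z⁻¹)) := by
    have hW := W_ne σ hC hP he h0 t j
    refine ld_of γ (C.cw j) t (fun s' => pth_w σ hC hP he h0 s' j) ?_
    have h1 := (((hd_X hP he t).add ((hd_X hP he t).inv hX0)).sub_const (σ (tr (C.z j))))
    refine h1.congr_deriv ?_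
    rw [htr] at hW ⊢
    rw [mul_div_assoc', mul_div_cancel_left₀ _ hW]
    field_simp
    ring
  have n1 : γ.ln C.cx t = Real.log ‖Xc s b e t‖ := by
    unfold Path.ln
    rw [hγ, pth_x]
  have n2 : γ.ln C.cy t = Real.log ‖Yc s b e t‖ := by
    unfold Path.ln
    rw [hγ, pth_y]
  show Mt γ j t = Me z z' s b e t
  unfold Mt Me
  rw [e1, e2, e3, e4, l1, l2, l3, n1, n2]

end reg

section limit

theorem small_zero {b : ℝ} (h1 : b < 1) (h0 : 0 < b) : Small b 0 := by
  unfold Small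
  rw [Real.cosh_zero]
  nlinarith

theorem eventually_small {b : ℝ} (h1 : b < 1) (h0 : 0 < b) :
    ∀ᶠ e : ℝ in 𝓝 0, Small b e ∧ |e| ≤ 1 := by
  have h2 : ∀ᶠ e : ℝ in 𝓝 0, b ^ 2 * Real.cosh e ^ 2 < (1 + b ^ 2) / 2 := by
    have h3 : Continuous fun e : ℝ => b ^ 2 * Real.cosh e ^ 2 := by fun_prop
    refine h3.continuousAt.eventually_lt continuousAt_const ?_
    rw [Real.cosh_zero]
    nlinarith
  have h3 : ∀ᶠ e : ℝ in 𝓝 0, |e| < 1 := by
    refine continuous_abs.continuousAt.eventually_lt continuousAt_const ?_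
    rw [abs_zero]
    exact one_pos
  filter_upwards [h2, h3] with e h4 h5
  exact ⟨h4.le, h5.le⟩

theorem countable_cos (c : ℝ) : {t : ℝ | Real.cos (4 * π * t) = c}.Countable := by
  by_cases h : ∃ t₀ : ℝ, Real.cos (4 * π * t₀) = c
  · obtain ⟨t₀, h0⟩ := h
    have h1 : (range fun k : ℤ => (t₀ - k / 2 : ℝ)).Countable := countable_range _
    have h2 : (range fun k : ℤ => (k / 2 - t₀ : ℝ)).Countable := countable_range _
    refine (h1.union h2).mono ?_
    intro t ht
    have hpi := Real.pi_pos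
    have h3 : Real.cos (4 * π * t) = Real.cos (4 * π * t₀) := by
      rw [h0]
      exact ht
    rw [Real.cos_eq_cos_iff] at h3
    obtain ⟨k, hk | hk⟩ := h3
    · left
      refine ⟨k, ?_⟩
      have h4 : π * (t - (t₀ - k / 2)) = 0 := by linarith
      have := (mul_eq_zero.1 h4).resolve_left hpi.ne'
      simp only
      linarith
    · right
      refine ⟨k, ?_⟩
      have h4 : π * (t - (k / 2 - t₀)) = 0 := by linarith
      have := (mul_eq_zero.1 h4).resolve_left hpi.ne'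
      simp only
      linarith
  · have h1 : {t : ℝ | Real.cos (4 * π * t) = c} = ∅ := by
      ext t
      simp only [mem_ofPred_eq, mem_empty_iff_false, iff_false]
      exact fun ht => h ⟨t, ht⟩
    rw [h1]
    exact countable_empty

variable {κ s b : ℝ} (hP : Par κ s b) {z z' : ℂ} (hz : ‖z‖ = 1) (hz' : ‖z'‖ = 1)
  (hk : z + z⁻¹ - (z' + z'⁻¹) = κ)

include hP hz in
theorem ae_W : ∀ᵐ t : ℝ, Xc s b 0 t + (Xc s b 0 t)⁻¹ - (z + z⁻¹) ≠ 0 := by
  have hb := hP.b0
  have hs := hP.s_sq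
  have hzz : z + z⁻¹ = ((2 * z.re : ℝ) : ℂ) := by
    rw [Complex.inv_eq_conj hz, Complex.add_conj]
  filter_upwards [(countable_cos (1 + (s * (2 * z.re) - 2) / (2 * b ^ 2))).ae_notMem volume] with t ht h1
  apply ht
  show Real.cos (4 * π * t) = _
  rw [Xc_add hP (small_zero hP.b1 hP.b0), hzz] at h1
  have h2 : Complex.sin (ps 0 t) ^ 2 = (((1 - Real.cos (4 * π * t)) / 2 : ℝ) : ℂ) := by
    have h3 : ps 0 t = ((2 * π * t : ℝ) : ℂ) := by
      unfold ps
      simp
    rw [h3, ← Complex.ofReal_sin, ← Complex.ofReal_pow]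
    congr 1
    have h4 : 4 * π * t = 2 * (2 * π * t) := by ring
    rw [h4, Real.cos_two_mul]
    have := Real.sin_sq_add_cos_sq (2 * π * t)
    linarith
  rw [h2] at h1
  have h3 : s * (2 - 4 * b ^ 2 * ((1 - Real.cos (4 * π * t)) / 2)) - 2 * z.re = 0 := by
    exact_mod_cast h1
  have h4 : 2 - 4 * b ^ 2 * ((1 - Real.cos (4 * π * t)) / 2) = s * (2 * z.re) := by
    have h5 : s * (s * (2 - 4 * b ^ 2 * ((1 - Real.cos (4 * π * t)) / 2))) = s * (2 * z.re) := by
      rw [show s * (2 - 4 * b ^ 2 * ((1 - Real.cos (4 * π * t)) / 2)) = 2 * z.re by linarith]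
    rw [← mul_assoc, hs, one_mul] at h5
    exact h5
  have hb2 : 2 * b ^ 2 ≠ 0 := by positivity
  field_simp
  linarith

include hP in
theorem cont_X (t : ℝ) : ContinuousAt (fun e => Xc s b e t) 0 := by
  unfold Xc
  have h1 : ContinuousAt (fun e => ps e t) 0 := by
    unfold ps
    fun_prop
  have h2 := (hasDerivAt_Pp (gg_mem hP (small_zero hP.b1 hP.b0) t)).continuousAt
  exact continuousAt_const.mul (ContinuousAt.comp (g := Pp b) h2 h1)

include hP in
theorem cont_Y (t : ℝ) : ContinuousAt (fun e => Yc s b e t) 0 := by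
  unfold Yc
  have h1 : ContinuousAt (fun e => ps (-e) (1 / 4 - t)) 0 := by
    unfold ps
    fun_prop
  have h2 := (hasDerivAt_Pp (gg_mem hP (small_zero hP.b1 hP.b0) (1 / 4 - t))).continuousAt
  have h3 : ps 0 (1 / 4 - t) = ps (-0) (1 / 4 - t) := by rw [neg_zero]
  rw [h3] at h2
  exact continuousAt_const.mul (ContinuousAt.comp (g := Pp b) h2 h1)

include hP in
theorem cont_om (t : ℝ) : ContinuousAt (om b) (ps 0 t) := by
  unfold om
  have h1 := (hasDerivAt_Sq (gg_mem hP (small_zero hP.b1 hP.b0) t)).continuousAt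
  exact ContinuousAt.div₀ (continuousAt_const.mul Complex.continuous_cos.continuousAt) h1 (Sq_ne _ _)

include hP in
theorem cont_lx (t : ℝ) : ContinuousAt (fun e => lx b e t) 0 := by
  unfold lx
  have h1 : ContinuousAt (fun e => ps e t) 0 := by
    unfold ps
    fun_prop
  exact continuousAt_const.mul (continuousAt_const.mul
    (ContinuousAt.comp (g := om b) (cont_om hP t) h1))

include hP in
theorem cont_ly (t : ℝ) : ContinuousAt (fun e => ly b e t) 0 := by
  unfold ly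
  have h1 : ContinuousAt (fun e => ps (-e) (1 / 4 - t)) 0 := by
    unfold ps
    fun_prop
  have h2 := cont_om hP (1 / 4 - t)
  have h3 : ps 0 (1 / 4 - t) = ps (-0) (1 / 4 - t) := by rw [neg_zero]
  rw [h3] at h2
  exact (continuousAt_const.mul (continuousAt_const.mul
    (ContinuousAt.comp (g := om b) (f := fun e => ps (-e) (1 / 4 - t)) h2 h1))).neg

theorem ne_one_of {z X : ℂ} (hz0 : z ≠ 0) (h : X + X⁻¹ - (z + z⁻¹) ≠ 0) :
    z⁻¹ * X ≠ 1 ∧ z * X ≠ 1 := by
  constructor
  · intro h1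
    apply h
    have h2 : X = z := by
      field_simp at h1
      exact h1
    rw [h2, sub_self]
  · intro h1
    apply h
    have h2 : X = z⁻¹ := eq_inv_of_mul_eq_one_right h1
    rw [h2, inv_inv]
    ring

include hP hz hz' hk in
theorem cont_Me {t : ℝ} (hW : Xc s b 0 t + (Xc s b 0 t)⁻¹ - (z + z⁻¹) ≠ 0) :
    ContinuousAt (fun e => Me z z' s b e t) 0 := by
  have hsm := small_zero hP.b1 hP.b0
  have hX0 := Xc_ne hP hsm t
  have hY0 := Yc_ne hP hsm t
  have hz0 : z ≠ 0 := norm_ne_zero_iff.1 (by rw [hz]; exact one_ne_zero)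
  have hz0' : z' ≠ 0 := norm_ne_zero_iff.1 (by rw [hz']; exact one_ne_zero)
  have hWY : Yc s b 0 t + (Yc s b 0 t)⁻¹ - (z' + z'⁻¹) ≠ 0 := by
    have h1 := XY hP hsm t
    have h2 : Yc s b 0 t + (Yc s b 0 t)⁻¹ - (z' + z'⁻¹) =
        Xc s b 0 t + (Xc s b 0 t)⁻¹ - (z + z⁻¹) := by linear_combination hk - h1
    rwa [h2]
  obtain ⟨x1, x2⟩ := ne_one_of hz0 hW
  obtain ⟨y1, y2⟩ := ne_one_of hz0' hWY
  have cX := cont_X hP t
  have cY := cont_Y hP t
  have cD : ∀ {c : ℂ} {f : ℝ → ℂ}, c ≠ 0 → ContinuousAt f 0 → f 0 ≠ 0 → c * f 0 ≠ 1 →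
      ContinuousAt (fun e => D (c * f e)) 0 := by
    intro c f hc hf hf0 hf1
    exact ContinuousAt.comp (g := D) (contAt_D (mul_ne_zero hc hf0) hf1) (continuousAt_const.mul hf)
  have clx := cont_lx hP t
  have cly := cont_ly hP t
  have cim : ∀ {f : ℝ → ℂ}, ContinuousAt f 0 → ContinuousAt (fun e => (f e).im) 0 :=
    fun hf => Complex.continuous_im.continuousAt.comp hf
  have cln : ∀ {f : ℝ → ℂ}, ContinuousAt f 0 → f 0 ≠ 0 →
      ContinuousAt (fun e => Real.log ‖f e‖) 0 :=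
    fun hf h => hf.norm.log (norm_ne_zero_iff.2 h)
  have c3 : ContinuousAt (fun e => ((Xc s b e t - (Xc s b e t)⁻¹) * lx b e t /
      (Xc s b e t + (Xc s b e t)⁻¹ - (z + z⁻¹))).re) 0 :=
    Complex.continuous_re.continuousAt.comp (ContinuousAt.div₀ ((cX.sub (cX.inv₀ hX0)).mul clx)
      ((cX.add (cX.inv₀ hX0)).sub continuousAt_const) hW)
  unfold Me
  exact (((((cD (inv_ne_zero hz0) cX hX0 x1).add (cD hz0 cX hX0 x2)).mul (cim cly))).add
    (((cD (inv_ne_zero hz0') cY hY0 y1).add (cD hz0' cY hY0 y2)).mul (cim clx))).add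
    (((cln cX hX0).mul (cln cY hY0)).mul c3)

include hP hz hz' hk in
theorem cont_Me_t {e : ℝ} (he : Small b e)
    (hW : ∀ t, Xc s b e t + (Xc s b e t)⁻¹ - (z + z⁻¹) ≠ 0) : Continuous (Me z z' s b e) := by
  have hz0 : z ≠ 0 := norm_ne_zero_iff.1 (by rw [hz]; exact one_ne_zero)
  have hz0' : z' ≠ 0 := norm_ne_zero_iff.1 (by rw [hz']; exact one_ne_zero)
  have hWY : ∀ t, Yc s b e t + (Yc s b e t)⁻¹ - (z' + z'⁻¹) ≠ 0 := by
    intro t
    have h1 := XY hP he t
    have h2 : Yc s b e t + (Yc s b e t)⁻¹ - (z' + z'⁻¹) =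
        Xc s b e t + (Xc s b e t)⁻¹ - (z + z⁻¹) := by linear_combination hk - h1
    rw [h2]
    exact hW t
  have hX0 := Xc_ne hP he
  have hY0 := Yc_ne hP he
  have cX := (Xc_smooth hP he).continuous
  have cY := (Yc_smooth hP he).continuous
  have cS : ∀ {e : ℝ}, Small b e → Continuous fun t => om b (ps e t) := by
    intro e he
    rw [continuous_iff_continuousAt]
    intro t
    have h1 := (hasDerivAt_Sq (gg_mem hP he t)).continuousAt
    have h2 : ContinuousAt (om b) (ps e t) := by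
      unfold om
      exact ContinuousAt.div₀ (continuousAt_const.mul Complex.continuous_cos.continuousAt) h1
        (Sq_ne _ _)
    exact ContinuousAt.comp (g := om b) h2 (ps_smooth e).continuous.continuousAt
  have clx : Continuous (lx b e) := by
    unfold lx
    exact continuous_const.mul (continuous_const.mul (cS he))
  have cly : Continuous (ly b e) := by
    unfold ly
    exact (continuous_const.mul (continuous_const.mul
      ((cS he.neg).comp (continuous_const.sub continuous_id)))).neg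
  have cD : ∀ {c : ℂ} {f : ℝ → ℂ}, c ≠ 0 → Continuous f → (∀ t, f t ≠ 0) → (∀ t, c * f t ≠ 1) →
      Continuous (fun t => D (c * f t)) := by
    intro c f hc hf hf0 hf1
    rw [continuous_iff_continuousAt]
    intro t
    exact ContinuousAt.comp (g := D) (contAt_D (mul_ne_zero hc (hf0 t)) (hf1 t))
      (continuous_const.mul hf).continuousAt
  have cim : ∀ {f : ℝ → ℂ}, Continuous f → Continuous (fun e => (f e).im) :=
    fun hf => Complex.continuous_im.comp hf
  have cln : ∀ {f : ℝ → ℂ}, Continuous f → (∀ t, f t ≠ 0) →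
      Continuous (fun e => Real.log ‖f e‖) :=
    fun hf h => hf.norm.log fun t => norm_ne_zero_iff.2 (h t)
  have c3 : Continuous (fun t => ((Xc s b e t - (Xc s b e t)⁻¹) * lx b e t /
      (Xc s b e t + (Xc s b e t)⁻¹ - (z + z⁻¹))).re) :=
    Complex.continuous_re.comp (((cX.sub (cX.inv₀ hX0)).mul clx).div
      ((cX.add (cX.inv₀ hX0)).sub continuous_const) hW)
  unfold Me
  exact (((((cD (inv_ne_zero hz0) cX hX0 fun t => (ne_one_of hz0 (hW t)).1).add
    (cD hz0 cX hX0 fun t => (ne_one_of hz0 (hW t)).2)).mul (cim cly))).add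
    (((cD (inv_ne_zero hz0') cY hY0 fun t => (ne_one_of hz0' (hWY t)).1).add
    (cD hz0' cY hY0 fun t => (ne_one_of hz0' (hWY t)).2)).mul (cim clx))).add
    (((cln cX hX0).mul (cln cY hY0)).mul c3)

include hP hz hz' hk in
theorem tendsto_Me : Tendsto (fun e => ∫ t in (0 : ℝ)..1, Me z z' s b e t) (𝓝[>] 0)
    (𝓝 (∫ t in (0 : ℝ)..1, Me z z' s b 0 t)) := by
  have hre : ∀ {w : ℂ}, ‖w‖ = 1 → w + w⁻¹ = ((2 * w.re : ℝ) : ℂ) ∧ |2 * w.re| ≤ 2 := by
    intro w hw
    refine ⟨by rw [Complex.inv_eq_conj hw, Complex.add_conj], ?_⟩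
    have h1 := Complex.abs_re_le_norm w
    rw [hw] at h1
    rw [abs_mul, abs_two]
    linarith
  have hkr : 2 * z.re - 2 * z'.re = κ := by
    rw [(hre hz).1, (hre hz').1] at hk
    exact_mod_cast hk
  have hsmall : ∀ᶠ e : ℝ in 𝓝[>] 0, 0 < e ∧ Small b e ∧ |e| ≤ 1 := by
    filter_upwards [self_mem_nhdsWithin, nhdsWithin_le_nhds (eventually_small hP.b1 hP.b0)]
      with e h1 h2
    exact ⟨h1, h2⟩
  refine intervalIntegral.tendsto_integral_filter_of_dominated_convergence
    (fun _ => 10 ^ 12 / (1 - b ^ 2)) ?_ ?_ intervalIntegrable_const ?_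
  · filter_upwards [hsmall] with e he
    refine Continuous.aestronglyMeasurable (cont_Me_t hP hz hz' hk he.2.1 fun t => ?_)
    rw [(hre hz).1]
    exact Xc_add_ne hP he.2.1 he.1 t (hre hz).2 (hre hz').2 hkr
  · filter_upwards [hsmall] with e he
    exact Eventually.of_forall fun t _ => Me_le hP hz hz' hk he.2.1 he.2.2 t
  · filter_upwards [ae_W hP hz] with t ht _
    exact (cont_Me hP hz hz' hk ht).tendsto.mono_left nhdsWithin_le_nhds

end limit

end Pool.Agent.P8H1.EK
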