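import Pool.Agent.P8H1.EK.Alg
import Pool.Agent.P8H1.EK.Path
import Pool.Agent.P8H1.KC.Reg
import Pool.Agent.N65.TK.Base
set_option autoImplicit false

/-!
The regulator of `xi j`.
-/

namespace Pool.Agent.P8H1.EK

open Real Set Filter Topology MeasureTheory
open Pool.Agent.N65.TK (Pt Path FS br D norm_root)
open Pool.Agent.P8H1.KC (ld_of ln_per)

variable {K : Type*} [Field K] {r : ℕ} {C : Dat K r} {k : K}

section general

variable (hC : C.Admissible k) (γ : Path C.Crv) (j : Fin r) (t : ℝ)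

theorem inv_tors {c : Kˣ} {N : ℕ} (h : c ^ N = 1) : c⁻¹ ^ N = 1 := by
  rw [inv_pow, h, inv_one]

theorem ln_mul_uc {c : Kˣ} (hc : ∃ N : ℕ, 0 < N ∧ c ^ N = 1) (f : C.Crvˣ) :
    γ.ln (C.uc c * f) t = γ.ln f t := by
  obtain ⟨N, hN, h⟩ := hc
  rw [γ.ln_mul, γ.ln_tors hN (f := C.uc c) (by rw [uc_pow, h, uc_one]), zero_add]

theorem ld_mul_uc {c : Kˣ} (hc : ∃ N : ℕ, 0 < N ∧ c ^ N = 1) (f : C.Crvˣ) :
    γ.ld (C.uc c * f) t = γ.ld f t := by
  obtain ⟨N, hN, h⟩ := hc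
  rw [γ.ld_mul, γ.ld_tors hN (f := C.uc c) (by rw [uc_pow, h, uc_one]), zero_add]

theorem inv_ex {c : Kˣ} (hc : ∃ N : ℕ, 0 < N ∧ c ^ N = 1) : ∃ N : ℕ, 0 < N ∧ c⁻¹ ^ N = 1 := by
  obtain ⟨N, hN, h⟩ := hc
  exact ⟨N, hN, inv_tors h⟩

/-- the integrand of the regulator, up to an exact form -/
noncomputable def Mt (t : ℝ) : ℝ :=
  (D (γ.e t (C.px j).1) + D (γ.e t (C.qx j).1)) * (γ.ld C.cy t).im +
    (D (γ.e t (C.py j).1) + D (γ.e t (C.qy j).1)) * (γ.ld C.cx t).im +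
    γ.ln C.cx t * γ.ln C.cy t * (γ.ld (C.cw j) t).re

include hC in
theorem sum_fr : γ.fr (C.px j) C.cy t + γ.fr (C.qx j) C.cy t + γ.fr (C.py j) C.cx t +
    γ.fr (C.qy j) C.cx t = Mt γ j t - 1 / 3 *
      ((γ.ld (C.cw j) t).re * γ.ln C.cx t * γ.ln C.cy t +
        γ.ln (C.cw j) t * (γ.ld C.cx t).re * γ.ln C.cy t +
        γ.ln (C.cw j) t * γ.ln C.cx t * (γ.ld C.cy t).re) := by
  have h1 := γ.ln_mul (C.px j).co (C.qx j).co t
  rw [co_x, γ.ln_mul] at h1
  have h2 := γ.ln_mul (C.py j).co (C.qy j).co t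
  rw [co_y, γ.ln_mul] at h2
  have h3 := congrArg Complex.re (γ.ld_mul (C.px j).co (C.qx j).co t)
  rw [co_x, γ.ld_mul, Complex.add_re, Complex.add_re] at h3
  have h4 := congrArg Complex.re (γ.ld_mul (C.py j).co (C.qy j).co t)
  rw [co_y, γ.ld_mul, Complex.add_re, Complex.add_re] at h4
  have a1 : γ.ln (C.px j).1 t = γ.ln C.cx t := ln_mul_uc γ t (inv_ex (hC.tors j)) _
  have a2 : γ.ln (C.qx j).1 t = γ.ln C.cx t := ln_mul_uc γ t (hC.tors j) _
  have a3 : γ.ln (C.py j).1 t = γ.ln C.cy t := ln_mul_uc γ t (inv_ex (hC.tors' j)) _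
  have a4 : γ.ln (C.qy j).1 t = γ.ln C.cy t := ln_mul_uc γ t (hC.tors' j) _
  have b1 : γ.ld (C.px j).1 t = γ.ld C.cx t := ld_mul_uc γ t (inv_ex (hC.tors j)) _
  have b2 : γ.ld (C.qx j).1 t = γ.ld C.cx t := ld_mul_uc γ t (hC.tors j) _
  have b3 : γ.ld (C.py j).1 t = γ.ld C.cy t := ld_mul_uc γ t (inv_ex (hC.tors' j)) _
  have b4 : γ.ld (C.qy j).1 t = γ.ld C.cy t := ld_mul_uc γ t (hC.tors' j) _
  unfold Path.fr Mt
  rw [a1, a2, a3, a4, b1, b2, b3, b4]
  linear_combination (1 / 3 * γ.ln C.cy t * (γ.ld C.cx t).re) * h1 -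
    (1 / 3 * γ.ln C.cy t * γ.ln C.cx t) * h3 +
    (1 / 3 * γ.ln C.cx t * (γ.ld C.cy t).re) * h2 -
    (1 / 3 * γ.ln C.cx t * γ.ln C.cy t) * h4

include hC in
theorem reg_xi : γ.reg (C.xi j) = ∫ t in (0 : ℝ)..1, Mt γ j t := by
  have i1 := γ.int_fr (C.px j) C.cy
  have i2 := γ.int_fr (C.qx j) C.cy
  have i3 := γ.int_fr (C.py j) C.cx
  have i4 := γ.int_fr (C.qy j) C.cx
  have hd : ∀ t ∈ uIcc (0 : ℝ) 1, HasDerivAt (fun t => γ.ln (C.cw j) t * γ.ln C.cx t * γ.ln C.cy t)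
      ((γ.ld (C.cw j) t).re * γ.ln C.cx t * γ.ln C.cy t +
        γ.ln (C.cw j) t * (γ.ld C.cx t).re * γ.ln C.cy t +
        γ.ln (C.cw j) t * γ.ln C.cx t * (γ.ld C.cy t).re) t := by
    intro t _
    refine (((γ.hasDerivAt_ln (C.cw j) t).mul (γ.hasDerivAt_ln C.cx t)).mul
      (γ.hasDerivAt_ln C.cy t)).congr_deriv ?_
    simp only [Pi.mul_apply]
    ring
  have hcre : ∀ f : C.Crvˣ, Continuous fun t => (γ.ld f t).re := fun f =>
    Complex.continuous_re.comp (γ.cont_ld f)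
  have hc : Continuous fun t => (γ.ld (C.cw j) t).re * γ.ln C.cx t * γ.ln C.cy t +
        γ.ln (C.cw j) t * (γ.ld C.cx t).re * γ.ln C.cy t +
        γ.ln (C.cw j) t * γ.ln C.cx t * (γ.ld C.cy t).re :=
    ((((hcre _).mul (γ.cont_ln _)).mul (γ.cont_ln _)).add
      (((γ.cont_ln _).mul (hcre _)).mul (γ.cont_ln _))).add
      (((γ.cont_ln _).mul (γ.cont_ln _)).mul (hcre _))
  have h0 := intervalIntegral.integral_eq_sub_of_hasDerivAt hd (hc.intervalIntegrable _ _)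
  rw [ln_per γ, ln_per γ, ln_per γ, sub_self] at h0
  unfold Dat.xi
  rw [map_add, map_add, map_add, γ.reg_br, γ.reg_br, γ.reg_br, γ.reg_br,
    ← intervalIntegral.integral_add i1 i2, ← intervalIntegral.integral_add (i1.add i2) i3,
    ← intervalIntegral.integral_add ((i1.add i2).add i3) i4]
  have h1 : (∫ t in (0 : ℝ)..1, γ.fr (C.px j) C.cy t + γ.fr (C.qx j) C.cy t +
      γ.fr (C.py j) C.cx t + γ.fr (C.qy j) C.cx t) = ∫ t in (0 : ℝ)..1, (Mt γ j t - 1 / 3 *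
      ((γ.ld (C.cw j) t).re * γ.ln C.cx t * γ.ln C.cy t +
        γ.ln (C.cw j) t * (γ.ld C.cx t).re * γ.ln C.cy t +
        γ.ln (C.cw j) t * γ.ln C.cx t * (γ.ld C.cy t).re)) := by
    refine intervalIntegral.integral_congr fun t _ => ?_
    exact sum_fr hC γ j t
  have hcim : ∀ f : C.Crvˣ, Continuous fun t => (γ.ld f t).im := fun f =>
    Complex.continuous_im.comp (γ.cont_ld f)
  have hM : Continuous (Mt γ j) := by
    unfold Mt
    exact ((((γ.cont_D _).add (γ.cont_D _)).mul (hcim _)).add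
      (((γ.cont_D _).add (γ.cont_D _)).mul (hcim _))).add
      (((γ.cont_ln _).mul (γ.cont_ln _)).mul (hcre _))
  rw [h1, intervalIntegral.integral_sub (hM.intervalIntegrable _ _)
    ((hc.intervalIntegrable _ _).const_mul _), intervalIntegral.integral_const_mul, h0]
  ring

end general

section loop

variable (σ : K →+* ℂ)

theorem tr_val {c : Kˣ} (hc : ∃ N : ℕ, 0 < N ∧ c ^ N = 1) :
    σ (tr c) = ((2 * (σ (c : K)).re : ℝ) : ℂ) := by
  have h1 := norm_root σ hc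
  unfold tr
  rw [map_add, Units.val_inv_eq_inv_val, map_inv₀, Complex.inv_eq_conj h1, Complex.add_conj]

theorem re_le {c : Kˣ} (hc : ∃ N : ℕ, 0 < N ∧ c ^ N = 1) : |2 * (σ (c : K)).re| ≤ 2 := by
  have h1 := Complex.abs_re_le_norm (σ (c : K))
  rw [norm_root σ hc] at h1
  rw [abs_mul, abs_two]
  linarith

include C in
theorem k_val (hC : C.Admissible k) (j : Fin r) :
    2 * (σ (C.z j : K)).re - 2 * (σ (C.z' j : K)).re = (σ k).re := by
  have h := congrArg Complex.re (congrArg σ (hC.eq j))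
  rw [map_sub, tr_val σ (hC.tors j), tr_val σ (hC.tors' j), Complex.sub_re, Complex.ofReal_re,
    Complex.ofReal_re] at h
  exact h

variable (hC : C.Admissible k) {s b e : ℝ} (hP : Par (σ k).re s b) (he : Small b e) (h0 : 0 < e)

include hC in
theorem k_im (j : Fin r) : (σ k).im = 0 := by
  have h := congrArg Complex.im (congrArg σ (hC.eq j))
  rw [map_sub, tr_val σ (hC.tors j), tr_val σ (hC.tors' j), Complex.sub_im, Complex.ofReal_im,
    Complex.ofReal_im, sub_zero] at h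
  exact h.symm

include hC hP he h0 in
theorem W_ne (t : ℝ) (j : Fin r) : Xc s b e t + (Xc s b e t)⁻¹ - σ (tr (C.z j)) ≠ 0 := by
  rw [tr_val σ (hC.tors j)]
  exact Xc_add_ne hP he h0 t (re_le σ (hC.tors j)) (re_le σ (hC.tors' j)) (k_val σ hC j)

include hC hP he in
theorem W_eq (t : ℝ) (j : Fin r) : Yc s b e t + (Yc s b e t)⁻¹ - σ (tr (C.z' j)) =
    Xc s b e t + (Xc s b e t)⁻¹ - σ (tr (C.z j)) := by
  have h1 := XY hP he t
  have h2 := k_val σ hC j
  rw [tr_val σ (hC.tors j), tr_val σ (hC.tors' j)]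
  have h3 : ((2 * (σ (C.z j : K)).re : ℝ) : ℂ) - ((2 * (σ (C.z' j : K)).re : ℝ) : ℂ) =
      (((σ k).re : ℝ) : ℂ) := by
    rw [← h2]
    push_cast
    rfl
  linear_combination h3 - h1

/-- the coordinates of the loop -/
noncomputable def crd (t : ℝ) : Fin (r + 2) → ℂˣ :=
  Fin.cons (Units.mk0 (Xc s b e t) (Xc_ne hP he t)) (Fin.cons (Units.mk0 (Yc s b e t) (Yc_ne hP he t))
    fun j : Fin r => Units.mk0 (Xc s b e t + (Xc s b e t)⁻¹ - σ (tr (C.z j))) (W_ne σ hC hP he h0 t j))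

/-- The loop. -/
noncomputable def pth : Path C.Crv :=
  mkPath C σ (crd σ hC hP he h0) (fun t j => rfl) (fun t j => W_eq σ hC hP he t j)
    (fun l => by
      refine Fin.cases ?_ (fun l => Fin.cases ?_ (fun j => ?_) l) l
      · exact Xc_smooth hP he
      · exact Yc_smooth hP he
      · exact ((Xc_smooth hP he).add ((Xc_smooth hP he).inv fun t => Xc_ne hP he t)).sub
          contDiff_const)
    (fun t => by
      unfold crd
      congr 1
      · ext
        exact Xc_per s b e t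
      · congr 1
        · ext
          exact Yc_per s b e t
        · funext j
          ext
          show Xc s b e (t + 1) + (Xc s b e (t + 1))⁻¹ - _ = Xc s b e t + (Xc s b e t)⁻¹ - _
          rw [Xc_per])

theorem pth_cst (t : ℝ) (a : K) : (pth σ hC hP he h0).e t (C.cst a) = σ a :=
  mkPath_cst C σ _ _ _ _ _ t a

theorem pth_single (t : ℝ) (c : Kˣ) (i : Fin (r + 2)) :
    (pth σ hC hP he h0).e t (C.mn c (Pi.single i 1)) = σ c * (crd σ hC hP he h0 t i : ℂ) := by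
  rw [pth, mkPath_mn, Finset.prod_eq_single i]
  · rw [Pi.single_eq_same, zpow_one]
  · intro l _ hl
    rw [Pi.single_eq_of_ne hl, zpow_zero]
  · intro h
    exact absurd (Finset.mem_univ i) h

theorem pth_x (t : ℝ) : (pth σ hC hP he h0).e t C.cx = Xc s b e t := by
  unfold Dat.cx
  rw [pth_single, Units.val_one, map_one, one_mul]
  rfl

theorem pth_y (t : ℝ) : (pth σ hC hP he h0).e t C.cy = Yc s b e t := by
  unfold Dat.cy
  rw [pth_single, Units.val_one, map_one, one_mul]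
  rfl

theorem pth_w (t : ℝ) (j : Fin r) : (pth σ hC hP he h0).e t (C.cw j) =
    Xc s b e t + (Xc s b e t)⁻¹ - σ (tr (C.z j)) := by
  unfold Dat.cw
  rw [pth_single, Units.val_one, map_one, one_mul]
  rfl

theorem pth_uc_x (t : ℝ) (c : Kˣ) : (pth σ hC hP he h0).e t (C.uc c * C.cx : C.Crvˣ) =
    σ c * Xc s b e t := by
  have h : C.uc c * C.cx = C.mn c (Pi.single 0 1) := by
    unfold Dat.uc Dat.cx
    rw [← mn_mul, mul_one, zero_add]
  rw [h, pth_single]
  rfl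

theorem pth_uc_y (t : ℝ) (c : Kˣ) : (pth σ hC hP he h0).e t (C.uc c * C.cy : C.Crvˣ) =
    σ c * Yc s b e t := by
  have h : C.uc c * C.cy = C.mn c (Pi.single 1 1) := by
    unfold Dat.uc Dat.cy
    rw [← mn_mul, mul_one, zero_add]
  rw [h, pth_single]
  rfl

theorem inv_val (c : Kˣ) : σ ((c⁻¹ : Kˣ) : K) = (σ (c : K))⁻¹ := by
  rw [Units.val_inv_eq_inv_val, map_inv₀]

end loop

section deriv

variable {κ s b e : ℝ} (hP : Par κ s b) (he : Small b e)

/-- the logarithmic derivative of `x` -/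
noncomputable def lx (b e t : ℝ) : ℂ := (2 * π : ℝ) * (Complex.I * om b (ps e t))

/-- the logarithmic derivative of `y` -/
noncomputable def ly (b e t : ℝ) : ℂ := -((2 * π : ℝ) * (Complex.I * om b (ps (-e) (1 / 4 - t))))

theorem hd_ps (e t : ℝ) : HasDerivAt (ps e) ((2 * π : ℝ) : ℂ) t := by
  unfold ps
  have h1 : HasDerivAt (fun t : ℝ => 2 * π * t) (2 * π * 1) t := (hasDerivAt_id t).const_mul _
  rw [mul_one] at h1
  exact h1.ofReal_comp.add_const _

include hP he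

theorem hd_Pp (t : ℝ) : HasDerivAt (fun t => Pp b (ps e t)) (Pp b (ps e t) * lx b e t) t := by
  have h1 := (hasDerivAt_Pp (gg_mem hP he t)).comp t (hd_ps e t)
  refine h1.congr_deriv ?_
  unfold lx
  ring

theorem hd_X (t : ℝ) : HasDerivAt (Xc s b e) (Xc s b e t * lx b e t) t := by
  refine ((hd_Pp hP he t).const_mul (s : ℂ)).congr_deriv ?_
  unfold Xc
  ring

theorem hd_Y (t : ℝ) : HasDerivAt (Yc s b e) (Yc s b e t * ly b e t) t := by
  have h1 := ((hd_Pp hP he.neg (1 / 4 - t)).comp_const_sub (1 / 4) t).const_mul (-(s : ℂ))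
  refine h1.congr_deriv ?_
  unfold Yc ly lx
  ring

end deriv

end Pool.Agent.P8H1.EK
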