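import Pool.Agent.P8H1.EK.Lim2
set_option autoImplicit false

/-!
The sign of the limit of the regulator.
-/

namespace Pool.Agent.P8H1.EK

open Real Set Filter Topology MeasureTheory
open Pool.Agent.N65.TK (Pt Path FS br D norm_root)

section real

variable {κ s b : ℝ} (hP : Par κ s b)

/-- the angle on the limit loop -/
noncomputable def th (b t : ℝ) : ℝ := 2 * Real.arcsin (b * Real.sin (2 * π * t))

/-- its derivative, divided by `2 π` -/
noncomputable def omr (b t : ℝ) : ℝ :=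
  2 * b * Real.cos (2 * π * t) / √(1 - b ^ 2 * Real.sin (2 * π * t) ^ 2)

theorem ps_zero (t : ℝ) : ps 0 t = ((2 * π * t : ℝ) : ℂ) := by
  unfold ps
  simp

include hP

theorem bsin (t : ℝ) : |b * Real.sin (2 * π * t)| < 1 := by
  rw [abs_mul, abs_of_pos hP.b0]
  have h1 := Real.abs_sin_le_one (2 * π * t)
  have h2 := hP.b0
  have h3 := hP.b1
  nlinarith [abs_nonneg (Real.sin (2 * π * t))]

theorem one_sub_pos (t : ℝ) : 0 < 1 - b ^ 2 * Real.sin (2 * π * t) ^ 2 := by
  have h1 := bsin hP t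
  rw [← mul_pow]
  have h2 : (b * Real.sin (2 * π * t)) ^ 2 < 1 := by
    rw [← sq_abs]
    have := abs_nonneg (b * Real.sin (2 * π * t))
    nlinarith
  linarith

theorem Sq_real (t : ℝ) : Sq b (ps 0 t) =
    ((√(1 - b ^ 2 * Real.sin (2 * π * t) ^ 2) : ℝ) : ℂ) := by
  have h0 := one_sub_pos hP t
  unfold Sq
  have h1 : gg b (ps 0 t) = ((1 - b ^ 2 * Real.sin (2 * π * t) ^ 2 : ℝ) : ℂ) := by
    unfold gg
    rw [ps_zero]
    push_cast
    rfl
  rw [h1, ← Complex.ofReal_log h0.le]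
  have h2 : ((Real.log (1 - b ^ 2 * Real.sin (2 * π * t) ^ 2) : ℝ) : ℂ) / 2 =
      ((Real.log (1 - b ^ 2 * Real.sin (2 * π * t) ^ 2) / 2 : ℝ) : ℂ) := by
    push_cast
    rfl
  rw [h2, ← Complex.ofReal_exp, ← Real.log_sqrt h0.le, Real.exp_log (Real.sqrt_pos.2 h0)]

theorem Pp_real (t : ℝ) : Pp b (ps 0 t) = Complex.exp (th b t * Complex.I) := by
  have h0 := bsin hP t
  rw [abs_lt] at h0
  unfold Pp th
  rw [Sq_real hP, ps_zero, ← Complex.ofReal_sin]
  have h1 : √(1 - b ^ 2 * Real.sin (2 * π * t) ^ 2) =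
      Real.cos (Real.arcsin (b * Real.sin (2 * π * t))) := by
    rw [Real.cos_arcsin, mul_pow]
  have h2 : (((2 * Real.arcsin (b * Real.sin (2 * π * t)) : ℝ) : ℂ)) * Complex.I =
      ((2 : ℕ) : ℂ) * (((Real.arcsin (b * Real.sin (2 * π * t)) : ℝ) : ℂ) * Complex.I) := by
    push_cast
    ring
  rw [h2, Complex.exp_nat_mul]
  congr 1
  rw [Complex.exp_mul_I, ← Complex.ofReal_cos, ← Complex.ofReal_sin,
    Real.sin_arcsin h0.1.le h0.2.le, h1]
  push_cast
  ring

theorem om_real (t : ℝ) : om b (ps 0 t) = ((omr b t : ℝ) : ℂ) := by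
  unfold om omr
  rw [Sq_real hP, ps_zero, ← Complex.ofReal_cos]
  push_cast
  rfl

theorem X_real (t : ℝ) : Xc s b 0 t = s * Complex.exp (th b t * Complex.I) := by
  unfold Xc
  rw [Pp_real hP]

theorem Y_real (t : ℝ) : Yc s b 0 t = -s * Complex.exp (th b (1 / 4 - t) * Complex.I) := by
  unfold Yc
  rw [neg_zero, Pp_real hP]

theorem norm_X_real (t : ℝ) : ‖Xc s b 0 t‖ = 1 := by
  rw [X_real hP, norm_mul, Complex.norm_exp_ofReal_mul_I, mul_one]
  rcases hP.s1 with h | h <;> rw [h] <;> simp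

theorem lx_real (t : ℝ) : (lx b 0 t).im = 2 * π * omr b t := by
  unfold lx
  rw [om_real hP, Complex.im_ofReal_mul, Complex.mul_im, Complex.I_re, Complex.I_im,
    Complex.ofReal_re]
  ring

theorem ly_real (t : ℝ) : (ly b 0 t).im = -(2 * π * omr b (1 / 4 - t)) := by
  unfold ly
  rw [neg_zero, om_real hP, Complex.neg_im, Complex.im_ofReal_mul, Complex.mul_im, Complex.I_re,
    Complex.I_im, Complex.ofReal_re]
  ring

theorem D_pair (z : ℂ) (θ : ℝ) {c : ℝ} (hc : c = 1 ∨ c = -1) :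
    D (z⁻¹ * (c * Complex.exp (θ * Complex.I))) + D (z * (c * Complex.exp (θ * Complex.I))) =
      Gz (c * z) θ := by
  unfold Gz
  have h1 : ((c : ℂ) * z)⁻¹ = c * z⁻¹ := by
    rw [mul_inv]
    congr 1
    rcases hc with h | h <;> rw [h] <;> norm_num
  rw [h1]
  congr 2 <;> ring

theorem Me_real (z z' : ℂ) (t : ℝ) : Me z z' s b 0 t =
    2 * π * (Gz (-s * z') (th b (1 / 4 - t)) * omr b t - Gz (s * z) (th b t) * omr b (1 / 4 - t)) := by
  unfold Me
  rw [norm_X_real hP, Real.log_one, zero_mul, zero_mul, add_zero, lx_real hP, ly_real hP,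
    X_real hP, Y_real hP]
  have h1 := D_pair hP z (th b t) hP.s1
  have h2 := D_pair hP z' (th b (1 / 4 - t)) (c := -s) (by
    rcases hP.s1 with h | h
    · right; rw [h]
    · left; rw [h, neg_neg])
  push_cast at h2
  rw [h1, h2]
  ring

theorem cont_th : Continuous (th b) := by
  unfold th
  fun_prop

theorem cont_omr : Continuous (omr b) := by
  unfold omr
  refine Continuous.div (by fun_prop) (by fun_prop) fun t => ?_
  exact (Real.sqrt_pos.2 (one_sub_pos hP t)).ne'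

theorem th_per (t : ℝ) : th b (t + 1) = th b t := by
  unfold th
  rw [mul_add (2 * π) t 1, mul_one, Real.sin_add_two_pi]

theorem omr_per (t : ℝ) : omr b (t + 1) = omr b t := by
  unfold omr
  rw [mul_add (2 * π) t 1, mul_one, Real.sin_add_two_pi, Real.cos_add_two_pi]

theorem int_shift {f : ℝ → ℝ} (hf : Function.Periodic f 1) :
    ∫ t in (0 : ℝ)..1, f (1 / 4 - t) = ∫ t in (0 : ℝ)..1, f t := by
  rw [intervalIntegral.integral_comp_sub_left (fun t => f t) (1 / 4 : ℝ)]
  have h1 := hf.intervalIntegral_add_eq (-3 / 4) 0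
  rw [zero_add] at h1
  rw [← h1]
  congr 1 <;> norm_num

theorem int_Me {z z' : ℂ} (hz : ‖z‖ = 1) (hz' : ‖z'‖ = 1) : ∫ t in (0 : ℝ)..1, Me z z' s b 0 t =
    -(2 * π * ∫ t in (0 : ℝ)..1,
      (Gz (s * z) (th b t) - Gz (-s * z') (th b t)) * omr b (1 / 4 - t)) := by
  have hs : ‖(s : ℂ)‖ = 1 := by rcases hP.s1 with h | h <;> rw [h] <;> simp
  have n1 : ‖(s : ℂ) * z‖ = 1 := by rw [norm_mul, hs, hz, one_mul]
  have n2 : ‖-(s : ℂ) * z'‖ = 1 := by rw [norm_mul, norm_neg, hs, hz', one_mul]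
  have c1 := continuous_Gz n1
  have c2 := continuous_Gz n2
  have ct := cont_th hP
  have co := cont_omr hP
  have cs : Continuous fun t : ℝ => (1 / 4 : ℝ) - t := continuous_const.sub continuous_id
  simp only [Me_real hP]
  rw [intervalIntegral.integral_const_mul, ← mul_neg]
  congr 1
  have i1 : Continuous fun t => Gz (-s * z') (th b (1 / 4 - t)) * omr b t :=
    (c2.comp (ct.comp cs)).mul co
  have i2 : Continuous fun t => Gz (s * z) (th b t) * omr b (1 / 4 - t) :=
    (c1.comp ct).mul (co.comp cs)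
  have i3 : Continuous fun t => Gz (-s * z') (th b t) * omr b (1 / 4 - t) :=
    (c2.comp ct).mul (co.comp cs)
  rw [intervalIntegral.integral_sub (i1.intervalIntegrable _ _) (i2.intervalIntegrable _ _)]
  have h1 : ∫ t in (0 : ℝ)..1, Gz (-s * z') (th b (1 / 4 - t)) * omr b t =
      ∫ t in (0 : ℝ)..1, Gz (-s * z') (th b t) * omr b (1 / 4 - t) := by
    have h2 := int_shift hP (f := fun t => Gz (-s * z') (th b t) * omr b (1 / 4 - t)) (fun t => by
      have e1 : (1 / 4 : ℝ) - (t + 1) + 1 = 1 / 4 - t := by ring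
      have e2 := omr_per hP (1 / 4 - (t + 1))
      rw [e1] at e2
      simp only
      rw [th_per hP, ← e2])
    rw [← h2]
    refine intervalIntegral.integral_congr fun t _ => ?_
    simp only [sub_sub_cancel]
  rw [h1]
  simp only [sub_mul]
  rw [intervalIntegral.integral_sub (i2.intervalIntegrable _ _) (i3.intervalIntegrable _ _)]
  ring

theorem th_mem {t : ℝ} (ht : t ∈ Ioo (0 : ℝ) (1 / 2)) : 0 < th b t ∧ th b t < π := by
  have hpi := Real.pi_pos
  have h0 := bsin hP t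
  rw [abs_lt] at h0
  have h1 : 0 < Real.sin (2 * π * t) :=
    Real.sin_pos_of_pos_of_lt_pi (by nlinarith [ht.1]) (by nlinarith [ht.2])
  have h2 : 0 < b * Real.sin (2 * π * t) := mul_pos hP.b0 h1
  unfold th
  constructor
  · have := Real.arcsin_pos.2 h2
    linarith
  · have h3 : Real.arcsin (b * Real.sin (2 * π * t)) < π / 2 := Real.arcsin_lt_pi_div_two.2 h0.2
    linarith

theorem omr_quarter (t : ℝ) : omr b (1 / 4 - t) =
    2 * b * Real.sin (2 * π * t) / √(1 - b ^ 2 * Real.cos (2 * π * t) ^ 2) := by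
  unfold omr
  have h1 : 2 * π * (1 / 4 - t) = π / 2 - 2 * π * t := by ring
  rw [h1, Real.cos_pi_div_two_sub, Real.sin_pi_div_two_sub]

theorem omr_pos {t : ℝ} (ht : t ∈ Ioo (0 : ℝ) (1 / 2)) : 0 < omr b (1 / 4 - t) := by
  have hpi := Real.pi_pos
  have h1 : 0 < Real.sin (2 * π * t) :=
    Real.sin_pos_of_pos_of_lt_pi (by nlinarith [ht.1]) (by nlinarith [ht.2])
  have h2 := one_sub_pos hP (1 / 4 - t)
  have h3 : 2 * π * (1 / 4 - t) = π / 2 - 2 * π * t := by ring
  rw [h3, Real.sin_pi_div_two_sub] at h2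
  rw [omr_quarter hP]
  have := hP.b0
  have := Real.sqrt_pos.2 h2
  positivity

theorem th_refl (t : ℝ) : th b (1 - t) = -th b t := by
  unfold th
  have h1 : 2 * π * (1 - t) = 2 * π - 2 * π * t := by ring
  rw [h1, Real.sin_two_pi_sub, mul_neg, Real.arcsin_neg]
  ring

theorem omr_refl (t : ℝ) : omr b (1 / 4 - (1 - t)) = -omr b (1 / 4 - t) := by
  rw [omr_quarter hP, omr_quarter hP]
  have h1 : 2 * π * (1 - t) = 2 * π - 2 * π * t := by ring
  rw [h1, Real.sin_two_pi_sub, Real.cos_two_pi_sub]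
  ring

/-- the integrand of the limit is positive -/
theorem int_pos {z₁ z₂ : ℂ} (h1 : ‖z₁‖ = 1) (h2 : ‖z₂‖ = 1) (h : z₂.re < z₁.re) :
    0 < ∫ t in (0 : ℝ)..1, (Gz z₁ (th b t) - Gz z₂ (th b t)) * omr b (1 / 4 - t) := by
  have c1 := continuous_Gz h1
  have c2 := continuous_Gz h2
  have ct := cont_th hP
  have co := cont_omr hP
  have cs : Continuous fun t : ℝ => (1 / 4 : ℝ) - t := continuous_const.sub continuous_id
  have hc : Continuous fun t => (Gz z₁ (th b t) - Gz z₂ (th b t)) * omr b (1 / 4 - t) :=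
    ((c1.comp ct).sub (c2.comp ct)).mul (co.comp cs)
  have hpos : ∀ t ∈ Ioo (0 : ℝ) (1 / 2),
      0 < (Gz z₁ (th b t) - Gz z₂ (th b t)) * omr b (1 / 4 - t) := by
    intro t ht
    obtain ⟨h3, h4⟩ := th_mem hP ht
    exact mul_pos (sub_pos.2 (Gz_lt h2 h1 h h3 h4)) (omr_pos hP ht)
  have hA : 0 < ∫ t in (0 : ℝ)..(1 / 2), (Gz z₁ (th b t) - Gz z₂ (th b t)) * omr b (1 / 4 - t) :=
    intervalIntegral.intervalIntegral_pos_of_pos_on (hc.intervalIntegrable _ _) hpos (by norm_num)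
  have hB : 0 < ∫ t in (1 / 2 : ℝ)..1, (Gz z₁ (th b t) - Gz z₂ (th b t)) * omr b (1 / 4 - t) := by
    refine intervalIntegral.intervalIntegral_pos_of_pos_on (hc.intervalIntegrable _ _)
      (fun t ht => ?_) (by norm_num)
    have h3 := hpos (1 - t) ⟨by linarith [ht.2], by linarith [ht.1]⟩
    have h4 := th_refl hP (1 - t)
    have h5 := omr_refl hP (1 - t)
    rw [sub_sub_cancel] at h4 h5
    rw [h4, h5, Gz_neg h1, Gz_neg h2]
    linarith
  rw [← intervalIntegral.integral_add_adjacent_intervals (b := 1 / 2) (hc.intervalIntegrable _ _)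
    (hc.intervalIntegrable _ _)]
  linarith

/-- the sign of the limit of the regulator -/
theorem limit_sign {z z' : ℂ} (hz : ‖z‖ = 1) (hz' : ‖z'‖ = 1) (hne : z.re + z'.re ≠ 0) :
    (∫ t in (0 : ℝ)..1, Me z z' s b 0 t) * (s * (z.re + z'.re)) < 0 := by
  rw [int_Me hP hz hz']
  have hpi := Real.pi_pos
  have hs : ‖(s : ℂ)‖ = 1 := by rcases hP.s1 with h | h <;> rw [h] <;> simp
  have n1 : ‖(s : ℂ) * z‖ = 1 := by rw [norm_mul, hs, hz, one_mul]
  have n2 : ‖-(s : ℂ) * z'‖ = 1 := by rw [norm_mul, norm_neg, hs, hz', one_mul]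
  have r1 : ((s : ℂ) * z).re = s * z.re := Complex.re_ofReal_mul _ _
  have r2 : (-(s : ℂ) * z').re = -(s * z'.re) := by
    rw [neg_mul, Complex.neg_re, Complex.re_ofReal_mul]
  have hs0 : s ≠ 0 := fun h3 => by have := hP.s_sq; rw [h3] at this; norm_num at this
  rcases lt_or_gt_of_ne (mul_ne_zero hs0 hne) with h | h
  · have h1 := int_pos hP n2 n1 (by rw [r1, r2]; linarith)
    have h2 : ∫ t in (0 : ℝ)..1, (Gz (-s * z') (th b t) - Gz (s * z) (th b t)) * omr b (1 / 4 - t) =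
        -∫ t in (0 : ℝ)..1, (Gz (s * z) (th b t) - Gz (-s * z') (th b t)) * omr b (1 / 4 - t) := by
      rw [← intervalIntegral.integral_neg]
      refine intervalIntegral.integral_congr fun t _ => ?_
      ring
    rw [h2] at h1
    have h3 : 0 < 2 * π * -∫ t in (0 : ℝ)..1,
      (Gz (s * z) (th b t) - Gz (-s * z') (th b t)) * omr b (1 / 4 - t) := by positivity
    nlinarith
  · have h1 := int_pos hP n1 n2 (by rw [r1, r2]; linarith)
    have h3 : 0 < 2 * π * ∫ t in (0 : ℝ)..1,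
      (Gz (s * z) (th b t) - Gz (-s * z') (th b t)) * omr b (1 / 4 - t) := by positivity
    nlinarith

end real

end Pool.Agent.P8H1.EK
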